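import Pool.Agent.R838.ST.Rou
import Pool.Agent.W605.SD.FinA

set_option autoImplicit false

/-!
# Persistence of zeros of entire functions under small perturbations, and order bookkeeping
-/

namespace Pool.Agent.N76.SH

open Filter Complex Topology Set
open Pool.Agent.R838.ST (nb rouche)
open scoped ComplexConjugate

noncomputable section

/-- number of zeros of `g` in `A`, with multiplicity -/
def nu (g : ℂ → ℂ) (A : Set ℂ) : ℕ := ∑ᶠ s ∈ A, analyticOrderNatAt g s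

lemma nu_eq {g : ℂ → ℂ} {A : Set ℂ} (hA : A.Finite) :
    nu g A = ∑ s ∈ hA.toFinset, analyticOrderNatAt g s := by
  unfold nu
  rw [finsum_mem_eq_finite_toFinset_sum _ hA]

lemma nu_mono {g : ℂ → ℂ} {A B : Set ℂ} (hB : B.Finite) (h : A ⊆ B) : nu g A ≤ nu g B := by
  rw [nu_eq hB, nu_eq (hB.subset h)]
  apply Finset.sum_le_sum_of_subset_of_nonneg
  · intro s hs
    rw [Set.Finite.mem_toFinset] at hs ⊢
    exact h hs
  · intro _ _ _
    exact Nat.zero_le _

lemma le_nu {g : ℂ → ℂ} {A : Set ℂ} (hA : A.Finite) (S : Finset ℂ) (h : ∀ s ∈ S, s ∈ A) :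
    ∑ s ∈ S, analyticOrderNatAt g s ≤ nu g A := by
  rw [nu_eq hA]
  apply Finset.sum_le_sum_of_subset_of_nonneg
  · intro s hs
    rw [Set.Finite.mem_toFinset]
    exact h s hs
  · intro _ _ _
    exact Nat.zero_le _

lemma nu_le {g : ℂ → ℂ} {A : Set ℂ} (hA : A.Finite) {M : ℕ}
    (h : ∀ S : Finset ℂ, (∀ s ∈ S, s ∈ A) → ∑ s ∈ S, analyticOrderNatAt g s ≤ M) : nu g A ≤ M := by
  rw [nu_eq hA]
  exact h _ fun s hs => (Set.Finite.mem_toFinset hA).1 hs

lemma ord_zero {g : ℂ → ℂ} (hg : Differentiable ℂ g) {z : ℂ} (hz : g z ≠ 0) : analyticOrderNatAt g z = 0 := by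
  have h1 := (hg.analyticAt z).analyticOrderAt_eq_zero.2 hz
  simp [analyticOrderNatAt, h1]

lemma order_top {g : ℂ → ℂ} (hg : Differentiable ℂ g) (hne : ∃ w, g w ≠ 0) (z : ℂ) : analyticOrderAt g z ≠ ⊤ := by
  intro h
  rw [analyticOrderAt_eq_top] at h
  have h3 : AnalyticOnNhd ℂ g Set.univ := fun z _ => hg.analyticAt z
  have h4 := h3.eqOn_zero_of_preconnected_of_eventuallyEq_zero isPreconnected_univ (Set.mem_univ z) h
  obtain ⟨w, hw⟩ := hne
  exact hw (h4 (Set.mem_univ w))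

lemma persist1 {f : ℂ → ℂ} (hf : Differentiable ℂ f) (hne : ∃ w, f w ≠ 0) (a : ℂ) {U : Set ℂ}
    (hU : IsOpen U) (ha : a ∈ U) :
    ∃ δ : ℝ, 0 < δ ∧ ∀ ρ : ℝ, 0 < ρ → ρ < δ → Metric.closedBall a ρ ⊆ U ∧
      (∀ z ∈ Metric.closedBall a ρ, z ≠ a → f z ≠ 0) ∧ ∃ ε : ℝ, 0 < ε ∧
      ∀ g : ℂ → ℂ, Differentiable ℂ g → (∀ z ∈ Metric.sphere a ρ, ‖f z - g z‖ < ε) →
      {z | z ∈ Metric.ball a ρ ∧ g z = 0}.Finite ∧ nb g a ρ = analyticOrderNatAt f a := by
  have h1 : ∀ᶠ z in 𝓝[≠] a, f z ≠ 0 := by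
    rcases (hf.analyticAt a).eventually_eq_zero_or_eventually_ne_zero with h | h
    · exact absurd (analyticOrderAt_eq_top.2 h) (order_top hf hne a)
    · exact h
  rw [eventually_nhdsWithin_iff, Metric.eventually_nhds_iff] at h1
  obtain ⟨δ1, hδ1, h1⟩ := h1
  obtain ⟨δ2, hδ2, h2⟩ := Metric.isOpen_iff.1 hU a ha
  refine ⟨min δ1 δ2, lt_min hδ1 hδ2, fun ρ hρ hρδ => ?_⟩
  have hρ1 : ρ < δ1 := hρδ.trans_le (min_le_left _ _)
  have hρ2 : ρ < δ2 := hρδ.trans_le (min_le_right _ _)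
  have hnz : ∀ z ∈ Metric.closedBall a ρ, z ≠ a → f z ≠ 0 := fun z hz hza =>
    h1 (lt_of_le_of_lt hz hρ1) hza
  refine ⟨(Metric.closedBall_subset_ball hρ2).trans h2, hnz, ?_⟩
  have hsne : ∀ z ∈ Metric.sphere a ρ, z ≠ a := by
    intro z hz h3
    rw [h3, Metric.mem_sphere, dist_self] at hz
    exact hρ.ne hz
  obtain ⟨z0, hz0, hmin⟩ := (isCompact_sphere a ρ).exists_isMinOn
    (NormedSpace.sphere_nonempty.2 hρ.le) (hf.continuous.norm.continuousOn)
  refine ⟨‖f z0‖, norm_pos_iff.2 (hnz z0 (Metric.sphere_subset_closedBall hz0) (hsne z0 hz0)), fun g hg hgf => ?_⟩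
  obtain ⟨e1, -, e3⟩ := rouche hf hg hρ (fun z hz => (hgf z hz).trans_le (hmin hz))
  refine ⟨e3, ?_⟩
  rw [← e1]
  unfold nb
  rw [finsum_eq_single _ a]
  · rw [finsum_eq_single _ (Metric.mem_ball_self hρ)]
    intro x hx
    exact absurd (Subsingleton.elim x _) hx
  · intro z hza
    have : ∀ hz : z ∈ Metric.ball a ρ, analyticOrderNatAt f z = 0 := fun hz =>
      ord_zero hf (hnz z (Metric.ball_subset_closedBall hz) hza)
    rw [finsum_congr this, finsum_zero]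

/-- **Persistence of zeros.** -/
theorem persist {f : ℂ → ℂ} (hf : Differentiable ℂ f) (hne : ∃ w, f w ≠ 0) {U : Set ℂ} (hU : IsOpen U)
    (A : Finset ℂ) (hA : ∀ a ∈ A, a ∈ U) :
    ∃ K : Set ℂ, IsCompact K ∧ ∃ ε : ℝ, 0 < ε ∧ ∀ g : ℂ → ℂ, Differentiable ℂ g → (∀ z ∈ K, ‖f z - g z‖ < ε) →
      ∃ B : Finset ℂ, (∀ b ∈ B, b ∈ U ∧ g b = 0) ∧
        ∑ a ∈ A, analyticOrderNatAt f a = ∑ b ∈ B, analyticOrderNatAt g b := by
  classical
  have h1 : ∀ a : ℂ, ∃ δ : ℝ, 0 < δ ∧ (a ∈ A → ∀ ρ : ℝ, 0 < ρ → ρ < δ → Metric.closedBall a ρ ⊆ U ∧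
      ∃ ε : ℝ, 0 < ε ∧ ∀ g : ℂ → ℂ, Differentiable ℂ g → (∀ z ∈ Metric.sphere a ρ, ‖f z - g z‖ < ε) →
      {z | z ∈ Metric.ball a ρ ∧ g z = 0}.Finite ∧ nb g a ρ = analyticOrderNatAt f a) := by
    intro a
    by_cases ha : a ∈ A
    · obtain ⟨δ, hδ, h⟩ := persist1 hf hne a hU (hA a ha)
      exact ⟨δ, hδ, fun _ ρ h1 h2 => ⟨(h ρ h1 h2).1, (h ρ h1 h2).2.2⟩⟩
    · exact ⟨1, one_pos, fun h => absurd h ha⟩
  choose δ hδ h1 using h1
  -- a common small radius, smaller than half the distances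
  obtain ⟨ρ, hρ, hρδ, hρd⟩ : ∃ ρ : ℝ, 0 < ρ ∧ (∀ a ∈ A, ρ < δ a) ∧
      ∀ a ∈ A, ∀ b ∈ A, a ≠ b → 2 * ρ ≤ dist a b := by
    have e1 : ∀ᶠ ρ in 𝓝[>] (0 : ℝ), ∀ a ∈ A, ρ < δ a := by
      rw [Finset.eventually_all]
      intro a _
      exact (eventually_nhdsWithin_of_eventually_nhds (gt_mem_nhds (hδ a)))
    have e2 : ∀ᶠ ρ in 𝓝[>] (0 : ℝ), ∀ a ∈ A, ∀ b ∈ A, a ≠ b → 2 * ρ ≤ dist a b := by
      rw [Finset.eventually_all]
      intro a _
      rw [Finset.eventually_all]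
      intro b _
      by_cases hab : a = b
      · exact Eventually.of_forall fun _ h => absurd hab h
      · have : 0 < dist a b / 2 := by
          have := dist_pos.2 hab
          linarith
        filter_upwards [eventually_nhdsWithin_of_eventually_nhds (gt_mem_nhds this)] with ρ hρ _
        linarith
    obtain ⟨ρ, h1, h2, h3⟩ := (e1.and (e2.and self_mem_nhdsWithin)).exists
    exact ⟨ρ, h3, h1, h2⟩
  have h2 := fun a (ha : a ∈ A) => (h1 a ha ρ hρ (hρδ a ha)).1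
  have h3 : ∀ a : ℂ, ∃ ε : ℝ, 0 < ε ∧ (a ∈ A → ∀ g : ℂ → ℂ, Differentiable ℂ g →
      (∀ z ∈ Metric.sphere a ρ, ‖f z - g z‖ < ε) →
      {z | z ∈ Metric.ball a ρ ∧ g z = 0}.Finite ∧ nb g a ρ = analyticOrderNatAt f a) := by
    intro a
    by_cases ha : a ∈ A
    · obtain ⟨-, ε, hε, h⟩ := h1 a ha ρ hρ (hρδ a ha)
      exact ⟨ε, hε, fun _ => h⟩
    · exact ⟨1, one_pos, fun h => absurd h ha⟩
  choose ε hε h3 using h3
  obtain ⟨ε0, hε0, hεa⟩ : ∃ ε0 : ℝ, 0 < ε0 ∧ ∀ a ∈ A, ε0 < ε a := by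
    have e1 : ∀ᶠ x in 𝓝[>] (0 : ℝ), ∀ a ∈ A, x < ε a := by
      rw [Finset.eventually_all]
      intro a _
      exact (eventually_nhdsWithin_of_eventually_nhds (gt_mem_nhds (hε a)))
    obtain ⟨x, h1, h2⟩ := (e1.and self_mem_nhdsWithin).exists
    exact ⟨x, h2, h1⟩
  refine ⟨⋃ a ∈ A, Metric.closedBall a ρ, A.isCompact_biUnion fun a _ => isCompact_closedBall a ρ, ε0, hε0,
    fun g hg hgK => ?_⟩
  have h4 : ∀ a (ha : a ∈ A), {z | z ∈ Metric.ball a ρ ∧ g z = 0}.Finite ∧ nb g a ρ = analyticOrderNatAt f a :=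
    fun a ha => h3 a ha g hg fun z hz => (hgK z (Set.mem_biUnion ha (Metric.sphere_subset_closedBall hz))).trans
      (hεa a ha)
  have h5 : ∀ a : ℂ, ∃ B : Finset ℂ, a ∈ A → (∀ z, z ∈ B ↔ z ∈ Metric.ball a ρ ∧ g z = 0) ∧
      ∑ b ∈ B, analyticOrderNatAt g b = analyticOrderNatAt f a := by
    intro a
    by_cases ha : a ∈ A
    · obtain ⟨hfin, hnb⟩ := h4 a ha
      refine ⟨hfin.toFinset, fun _ => ⟨fun z => by rw [Set.Finite.mem_toFinset]; rfl, ?_⟩⟩
      rw [← hnb]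
      unfold nb
      symm
      rw [finsum_mem_eq_sum_of_inter_support_eq]
      ext z
      rw [Set.mem_inter_iff, Set.mem_inter_iff, Finset.mem_coe, Set.Finite.mem_toFinset]
      constructor
      · rintro ⟨k1, k2⟩
        refine ⟨⟨k1, ?_⟩, k2⟩
        by_contra hgz
        exact k2 (ord_zero hg hgz)
      · rintro ⟨⟨k1, -⟩, k2⟩
        exact ⟨k1, k2⟩
    · exact ⟨∅, fun h => absurd h ha⟩
  choose B hB using h5
  refine ⟨A.biUnion B, fun b hb => ?_, ?_⟩
  · obtain ⟨a, ha, hba⟩ := Finset.mem_biUnion.1 hb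
    have := ((hB a ha).1 b).1 hba
    exact ⟨h2 a ha (Metric.ball_subset_closedBall this.1), this.2⟩
  · rw [Finset.sum_biUnion]
    · exact Finset.sum_congr rfl fun a ha => ((hB a ha).2).symm
    · intro a ha b hb hab
      rw [Function.onFun, Finset.disjoint_left]
      intro z hz1 hz2
      have k1 := (((hB a ha).1 z).1 hz1).1
      have k2 := (((hB b hb).1 z).1 hz2).1
      rw [Metric.mem_ball] at k1 k2
      have k3 := dist_triangle_left a b z
      have k4 := hρd a ha b hb hab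
      linarith

/-! ### orders under substitutions -/

lemma ord_shift {X : ℂ → ℂ} (c z : ℂ) : analyticOrderNatAt (fun s => X (s + c)) z = analyticOrderNatAt X (z + c) := by
  have ha : AnalyticAt ℂ (fun s : ℂ => s + c) z := by fun_prop
  have hd : deriv (fun s : ℂ => s + c) z ≠ 0 := by
    rw [deriv_add_const]
    simp
  have := analyticOrderAt_comp_of_deriv_ne_zero (f := X) ha hd
  unfold analyticOrderNatAt
  rw [← this]
  rfl

lemma ord_const_mul {X : ℂ → ℂ} (hX : Differentiable ℂ X) {v : ℂ} (hv : v ≠ 0) (z : ℂ) :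
    analyticOrderNatAt (fun s => v * X s) z = analyticOrderNatAt X z := by
  have h1 : analyticOrderAt (fun s => v * X s) z = analyticOrderAt (fun _ : ℂ => v) z + analyticOrderAt X z :=
    analyticOrderAt_mul analyticAt_const (hX.analyticAt z)
  have h2 : analyticOrderAt (fun _ : ℂ => v) z = 0 := analyticAt_const.analyticOrderAt_eq_zero.2 hv
  unfold analyticOrderNatAt
  rw [h1, h2, zero_add]

/-- `f` reflected in the imaginary axis -/
def refl (f : ℂ → ℂ) (s : ℂ) : ℂ := conj (f (-conj s))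

lemma analyticAt_refl {f : ℂ → ℂ} {s : ℂ} (h : AnalyticAt ℂ f (-conj s)) : AnalyticAt ℂ (refl f) s := by
  obtain ⟨F, hF⟩ : ∃ F : ℂ → ℂ, F = fun z => f (-z) := ⟨_, rfl⟩
  have hFa : AnalyticAt ℂ F (conj s) := by
    rw [hF]
    exact h.comp' (by fun_prop)
  have h1 : ∀ᶠ z in 𝓝 s, DifferentiableAt ℂ (refl f) z := by
    have h2 := ((Complex.continuous_conj.tendsto s).eventually (hFa.eventually_analyticAt))
    filter_upwards [h2] with z hz
    have h3 : refl f = conj ∘ F ∘ conj := by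
      funext w
      rw [hF]
      rfl
    rw [h3, differentiableAt_conj_conj_iff]
    exact hz.differentiableAt
  rw [Complex.analyticAt_iff_eventually_differentiableAt]
  exact h1

lemma continuous_nc : Continuous fun s : ℂ => -conj s := by fun_prop

lemma order_refl {f : ℂ → ℂ} {s : ℂ} (h : AnalyticAt ℂ f (-conj s)) :
    analyticOrderAt (refl f) s = analyticOrderAt f (-conj s) := by
  rcases eq_or_ne (analyticOrderAt f (-conj s)) ⊤ with h0 | h0
  · rw [h0, analyticOrderAt_eq_top]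
    rw [analyticOrderAt_eq_top] at h0
    have h2 := (continuous_nc.tendsto s).eventually h0
    filter_upwards [h2] with z hz
    simp [refl, hz]
  · obtain ⟨n, hn⟩ := ENat.ne_top_iff_exists.mp h0
    rw [← hn]
    obtain ⟨g, hg, hg0, hfg⟩ := (h.analyticOrderAt_eq_natCast).mp hn.symm
    rw [(analyticAt_refl h).analyticOrderAt_eq_natCast]
    refine ⟨fun z => (-1) ^ n * refl g z, analyticAt_const.mul (analyticAt_refl hg), ?_, ?_⟩
    · simp [refl, hg0]
    · have h2 := (continuous_nc.tendsto s).eventually hfg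
      filter_upwards [h2] with z hz
      simp only [refl, hz, smul_eq_mul, map_mul, map_pow, map_sub, map_neg, Complex.conj_conj]
      rw [← mul_assoc, ← mul_pow]
      congr 2
      ring

/-- orders of a function with `f (-(conj z)) = k conj (f z)` -/
lemma ord_symm {f : ℂ → ℂ} (hf : Differentiable ℂ f) {k : ℂ} (hk : k ≠ 0)
    (hs : ∀ z : ℂ, f (-(conj z)) = k * conj (f z)) (z : ℂ) :
    analyticOrderNatAt f (-(conj z)) = analyticOrderNatAt f z := by
  have h1 := order_refl (f := f) (s := z) (hf.analyticAt _)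
  have h2 : refl f = fun s => conj k * f s := by
    funext s
    unfold refl
    rw [hs, map_mul, Complex.conj_conj]
  have h3 : analyticOrderAt (refl f) z = analyticOrderAt f z := by
    rw [h2]
    have e1 : analyticOrderAt (fun s => conj k * f s) z = analyticOrderAt (fun _ : ℂ => conj k) z + analyticOrderAt f z :=
      analyticOrderAt_mul analyticAt_const (hf.analyticAt z)
    have e2 : analyticOrderAt (fun _ : ℂ => conj k) z = 0 :=
      analyticAt_const.analyticOrderAt_eq_zero.2 ((map_ne_zero _).2 hk)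
    rw [e1, e2, zero_add]
  unfold analyticOrderNatAt
  rw [← h1, h3]

end

end Pool.Agent.N76.SH
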