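import Pool.Agent.N76.SH.Two
import Pool.Agent.N76.SH.Per
import Pool.Agent.N831.SP.D

set_option autoImplicit false

/-!
# The zeros of `X (z + h) + u X (z - h)` off the imaginary axis are counted by the zeros of `X` with `|Re| > h`
-/

namespace Pool.Agent.N76.SH

open Filter Complex Topology Set
open Pool.Agent.R838.TW (Sy)
open Pool.Agent.N831.SP (equal_of_bd)
open H370 (Bd)
open scoped ComplexConjugate

noncomputable section

/-- the shifted sum -/
def sh (X : ℂ → ℂ) (h : ℝ) (u : ℂ) (z : ℂ) : ℂ := X (z + h) + u * X (z - h)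

lemma sh_diff {X : ℂ → ℂ} (hX : Differentiable ℂ X) (h : ℝ) (u : ℂ) : Differentiable ℂ (sh X h u) := by
  unfold sh
  have h1 : Differentiable ℂ fun z : ℂ => X (z + h) := hX.comp (by fun_prop)
  have h2 : Differentiable ℂ fun z : ℂ => X (z - h) := hX.comp (by fun_prop)
  exact h1.add (h2.const_mul u)

lemma sh_symm {X : ℂ → ℂ} (hs : ∀ z : ℂ, X (-(conj z)) = conj (X z)) {h : ℝ} {u : ℂ} (hu : ‖u‖ = 1) (z : ℂ) :
    sh X h u (-(conj z)) = u * conj (sh X h u z) := by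
  have e1 : -(conj z) + (h : ℂ) = -(conj (z - h)) := by
    rw [map_sub, Complex.conj_ofReal]
    ring
  have e2 : -(conj z) - (h : ℂ) = -(conj (z + h)) := by
    rw [map_add, Complex.conj_ofReal]
    ring
  have e3 : u * conj u = 1 := by
    rw [Complex.mul_conj, Complex.normSq_eq_norm_sq, hu]
    norm_num
  unfold sh
  rw [e1, e2, hs, hs, map_add, map_mul]
  linear_combination (-(conj (X (z - h)))) * e3

lemma abs_le_sq {x D : ℝ} (h : |x| ≤ D) : x ^ 2 ≤ D ^ 2 := by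
  have := abs_nonneg x
  rw [← sq_abs x]
  gcongr

theorem fin_T {X : ℂ → ℂ} (hX : Sy X) {D : ℝ} (hD : ∀ b, X b = 0 → |b.re| ≤ D) (t1 t2 : ℝ) :
    {s | X s = 0 ∧ t1 ≤ s.im ∧ s.im ≤ t2}.Finite := by
  obtain ⟨w0, hw0⟩ := hX.ne
  have hK : IsCompact (Icc (-D) D ×ℂ Icc t1 t2) := isCompact_Icc.reProdIm isCompact_Icc
  refine (Pool.Agent.W605.SD.fin_zeros hX.diff hw0 hK).subset ?_
  rintro s ⟨h1, h2, h3⟩
  refine ⟨?_, h1⟩
  rw [mem_reProdIm]
  have := abs_le.1 (hD _ h1)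
  exact ⟨⟨this.1, this.2⟩, h2, h3⟩

theorem close {X : ℂ → ℂ} (hX : Continuous X) (h : ℝ) (u : ℂ) {K : Set ℂ} (hK : IsCompact K) {ε : ℝ} (hε : 0 < ε) :
    ∀ᶠ p : ℝ × ℝ in 𝓝 (h, 1), ∀ z ∈ K, ‖sh X h u z - sh X p.1 (p.2 * u) z‖ < ε := by
  refine hK.eventually_forall_of_forall_eventually fun z _ => ?_
  have hc : Continuous fun q : (ℝ × ℝ) × ℂ => ‖sh X h u q.2 - sh X q.1.1 (q.1.2 * u) q.2‖ := by
    unfold sh
    fun_prop
  refine hc.continuousAt.eventually (gt_mem_nhds ?_)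
  simp only [Complex.ofReal_one, one_mul, sub_self, norm_zero]
  exact hε

theorem right_le {X : ℂ → ℂ} (hX : Sy X) {D : ℝ} (hD : ∀ b, X b = 0 → |b.re| ≤ D) {h : ℝ} (h0 : 0 < h)
    {t1 t2 : ℝ} (h12 : t1 < t2) (g1 : (t1 * I : ℂ) ∈ Dom X h) (g2 : (t2 * I : ℂ) ∈ Dom X h) {u : ℂ} (hu : ‖u‖ = 1)
    (A : Finset ℂ) (hA : ∀ a ∈ A, 0 < a.re ∧ t1 < a.im ∧ a.im < t2) :
    ∑ a ∈ A, analyticOrderNatAt (sh X h u) a ≤ nu X {s | X s = 0 ∧ h < s.re ∧ t1 < s.im ∧ s.im < t2} := by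
  classical
  have hfd := sh_diff hX.diff h u
  by_cases hne : ∃ w, sh X h u w ≠ 0
  swap
  · push Not at hne
    have h1 : ∀ a, analyticOrderNatAt (sh X h u) a = 0 := by
      intro a
      have h2 : analyticOrderAt (sh X h u) a = ⊤ := by
        rw [analyticOrderAt_eq_top]
        exact Eventually.of_forall hne
      unfold analyticOrderNatAt
      rw [h2]
      rfl
    rw [Finset.sum_congr rfl fun a _ => h1 a]
    simp
  obtain ⟨R, hR1, hR2⟩ : ∃ R : ℝ, |D| + 1 ≤ R ∧ ∀ a ∈ A, a.re < R := by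
    have h1 : ∀ᶠ R : ℝ in atTop, ∀ a ∈ A, a.re < R := by
      rw [Finset.eventually_all]
      exact fun a _ => eventually_gt_atTop a.re
    obtain ⟨R, h2, h3⟩ := ((eventually_ge_atTop (|D| + 1)).and h1).exists
    exact ⟨R, h2, h3⟩
  have hR0 : 0 < R := by
    have := abs_nonneg D
    linarith
  have hU : IsOpen (Ioo 0 R ×ℂ Ioo t1 t2) := isOpen_Ioo.reProdIm isOpen_Ioo
  obtain ⟨K, hK, ε, hε, hper⟩ := persist hfd hne hU A (fun a ha => by
    rw [mem_reProdIm]
    exact ⟨⟨(hA a ha).1, hR2 a ha⟩, (hA a ha).2⟩)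
  have hev := close hX.diff.continuous h u hK hε
  rw [Metric.eventually_nhds_iff] at hev
  obtain ⟨δ, hδ, hev⟩ := hev
  have hfinT := fin_T hX hD t1 t2
  have hfin : (Complex.re '' {s | X s = 0 ∧ t1 ≤ s.im ∧ s.im ≤ t2}).Finite := hfinT.image _
  obtain ⟨h', hh', hh'n⟩ : ∃ h' ∈ Ioo h (h + δ), h' ∉ Complex.re '' {s | X s = 0 ∧ t1 ≤ s.im ∧ s.im ≤ t2} := by
    have h1 : (Ioo h (h + δ)).Infinite := Ioo_infinite (by linarith)
    obtain ⟨x, hx1, hx2⟩ := (h1.diff hfin).nonempty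
    exact ⟨x, hx1, hx2⟩
  obtain ⟨r, hr⟩ : ∃ r : ℝ, r = 1 - min δ 1 / 2 := ⟨_, rfl⟩
  have hm : 0 < min δ 1 := lt_min hδ one_pos
  have hm1 : min δ 1 ≤ 1 := min_le_right _ _
  have hm2 : min δ 1 ≤ δ := min_le_left _ _
  have hr1 : r < 1 := by rw [hr]; linarith
  have hr0 : 0 < r := by rw [hr]; linarith
  have hh0 : 0 < h' := h0.trans hh'.1
  have hclose := hev (y := (h', r)) (by
    rw [Prod.dist_eq, Real.dist_eq, Real.dist_eq]
    simp only
    rw [max_lt_iff, abs_lt, abs_lt]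
    refine ⟨⟨?_, ?_⟩, ?_, ?_⟩
    · linarith [hh'.1]
    · linarith [hh'.2]
    · rw [hr]; linarith
    · rw [hr]; linarith)
  have hgd := sh_diff hX.diff h' (r * u)
  obtain ⟨B, hB, hsum⟩ := hper _ hgd hclose
  rw [hsum]
  -- Rouché on the rectangle
  have hFd : Differentiable ℂ fun z : ℂ => X (z + h') := hX.diff.comp (by fun_prop)
  have hGd : Differentiable ℂ fun z : ℂ => (-1 : ℂ) * sh X h' (r * u) z := hgd.const_mul _
  have hbd : ∀ s ∈ Bd 0 R t1 t2, X (s + h') ≠ 0 ∧ ‖X (s - h')‖ ≤ ‖X (s + h')‖ := by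
    have hdom : ∀ s : ℂ, s ∈ Dom X h' → 0 ≤ s.re → X (s + h') ≠ 0 ∧ ‖X (s - h')‖ ≤ ‖X (s + h')‖ :=
      fun s hs hs0 => ⟨ne_of_dom hs hh0.le hs0, le_of_dom hX hs hh0.le hs0⟩
    rintro s (⟨⟨h1, h2⟩, h3⟩ | ⟨⟨h1, h2⟩, h3⟩)
    · refine hdom s ?_ h1
      rcases h3 with h3 | h3
      · refine mem_Dom_mono g1 ?_ (by simp [h3])
        have h4 : ((t1 : ℂ) * I).re = 0 := by simp
        rw [h4]
        nlinarith [hh'.1, sq_nonneg s.re]
      · refine mem_Dom_mono g2 ?_ (by simp [h3])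
        have h4 : ((t2 : ℂ) * I).re = 0 := by simp
        rw [h4]
        nlinarith [hh'.1, sq_nonneg s.re]
    · rcases h3 with h3 | h3
      · -- on the imaginary axis
        refine ⟨fun h4 => hh'n ⟨s + h', ⟨h4, ?_, ?_⟩, ?_⟩, ?_⟩
        · simpa using h1
        · simpa using h2
        · simp [h3]
        · have e1 : s - (h' : ℂ) = -(conj (s + h')) := by
            apply Complex.ext
            · simp [h3]
            · simp
          rw [e1, hX.symm, Complex.norm_conj]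
      · refine hdom s (fun b hb => ?_) (by rw [h3]; exact hR0.le)
        have h4 := abs_le_sq (hD b hb)
        have h5 : D ^ 2 < R ^ 2 := by
          rw [← sq_abs D]
          have := abs_nonneg D
          nlinarith
        rw [h3]
        nlinarith [sq_nonneg h', sq_nonneg (s.im - b.im)]
  have hbd2 : ∀ s ∈ Bd 0 R t1 t2, X (s + h') ≠ 0 ∧ (-1 : ℂ) * sh X h' (r * u) s ≠ 0 ∧
      ((-1 : ℂ) * sh X h' (r * u) s / X (s + h')).re ≤ 0 := by
    intro s hs
    obtain ⟨h1, h2⟩ := hbd s hs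
    have e1 : (-1 : ℂ) * sh X h' (r * u) s / X (s + h') = -1 - (r * u * X (s - h')) / X (s + h') := by
      unfold sh
      field_simp
      ring
    have h3 : ‖(r * u * X (s - h')) / X (s + h')‖ ≤ r := by
      rw [norm_div, norm_mul, norm_mul, hu, mul_one, Complex.norm_real, Real.norm_eq_abs, abs_of_pos hr0,
        div_le_iff₀ (norm_pos_iff.2 h1)]
      exact mul_le_mul_of_nonneg_left h2 hr0.le
    have h4 : -((r * u * X (s - h')) / X (s + h')).re ≤ r := by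
      refine le_trans ?_ h3
      have := Complex.abs_re_le_norm ((r * u * X (s - h')) / X (s + h'))
      have h5 := neg_abs_le ((r * u * X (s - h')) / X (s + h')).re
      linarith
    have h5 : ((-1 : ℂ) * sh X h' (r * u) s / X (s + h')).re < 0 := by
      rw [e1, Complex.sub_re, Complex.neg_re, Complex.one_re]
      linarith
    refine ⟨h1, fun h6 => ?_, h5.le⟩
    rw [h6, zero_div, Complex.zero_re] at h5
    exact lt_irrefl _ h5
  obtain ⟨f1, f2, heq⟩ := equal_of_bd (F := fun z : ℂ => X (z + h')) (G := fun z : ℂ => (-1 : ℂ) * sh X h' (r * u) z)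
    hR0 h12 (fun s _ => hFd.analyticAt s) (fun s _ => hGd.analyticAt s) hbd2
  have h1 : ∑ b ∈ B, analyticOrderNatAt (sh X h' (r * u)) b ≤
      nu (fun z : ℂ => (-1 : ℂ) * sh X h' (r * u) z)
        {s | s ∈ Ioo 0 R ×ℂ Ioo t1 t2 ∧ (-1 : ℂ) * sh X h' (r * u) s = 0} := by
    refine le_trans (le_of_eq ?_) (le_nu f2 B fun b hb => ⟨(hB b hb).1, ?_⟩)
    · exact Finset.sum_congr rfl fun b _ => (ord_const_mul hgd (by norm_num) b).symm
    · rw [(hB b hb).2, mul_zero]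
  refine h1.trans ?_
  unfold nu
  rw [← heq]
  refine nu_le f1 fun S hS => ?_
  have hfinal : {s | X s = 0 ∧ h < s.re ∧ t1 < s.im ∧ s.im < t2}.Finite :=
    hfinT.subset fun s hs => ⟨hs.1, hs.2.2.1.le, hs.2.2.2.le⟩
  have h2 : ∑ s ∈ S, analyticOrderNatAt (fun z : ℂ => X (z + h')) s =
      ∑ s ∈ S.image (fun s => s + (h' : ℂ)), analyticOrderNatAt X s := by
    rw [Finset.sum_image (fun a _ b _ hab => add_right_cancel hab)]
    exact Finset.sum_congr rfl fun s _ => ord_shift _ _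
  rw [h2]
  refine le_nu hfinal _ fun s hs => ?_
  obtain ⟨w, hw, rfl⟩ := Finset.mem_image.1 hs
  obtain ⟨k1, k2⟩ := hS w hw
  rw [mem_reProdIm] at k1
  refine ⟨k2, ?_, ?_, ?_⟩
  · rw [Complex.add_re, Complex.ofReal_re]
    linarith [k1.1.1, hh'.1]
  · rw [Complex.add_im, Complex.ofReal_im, add_zero]
    exact k1.2.1
  · rw [Complex.add_im, Complex.ofReal_im, add_zero]
    exact k1.2.2

/-- **Zeros off the line between good heights.** -/
theorem off_le {X : ℂ → ℂ} (hX : Sy X) {D : ℝ} (hD : ∀ b, X b = 0 → |b.re| ≤ D) {h : ℝ} (h0 : 0 < h)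
    {t1 t2 : ℝ} (h12 : t1 < t2) (g1 : (t1 * I : ℂ) ∈ Dom X h) (g2 : (t2 * I : ℂ) ∈ Dom X h) {u : ℂ} (hu : ‖u‖ = 1)
    (A : Finset ℂ) (hA : ∀ a ∈ A, a.re ≠ 0 ∧ t1 < a.im ∧ a.im < t2) :
    ∑ a ∈ A, analyticOrderNatAt (sh X h u) a ≤ nu X {s | X s = 0 ∧ h < |s.re| ∧ t1 < s.im ∧ s.im < t2} := by
  classical
  have hu0 : u ≠ 0 := by
    intro h1
    rw [h1, norm_zero] at hu
    exact zero_ne_one hu
  have hfd := sh_diff hX.diff h u
  have hinj : Function.Injective fun z : ℂ => -(conj z) := fun a b hab =>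
    (starRingEnd ℂ).injective (neg_injective hab)
  have h1 := right_le hX hD h0 h12 g1 g2 hu (A.filter fun a => 0 < a.re) (fun a ha => by
    rw [Finset.mem_filter] at ha
    exact ⟨ha.2, (hA a ha.1).2⟩)
  have h2 := right_le hX hD h0 h12 g1 g2 hu ((A.filter fun a => ¬ 0 < a.re).image fun z => -(conj z)) (fun a ha => by
    obtain ⟨b, hb, rfl⟩ := Finset.mem_image.1 ha
    rw [Finset.mem_filter] at hb
    obtain ⟨k1, k2, k3⟩ := hA b hb.1
    have k4 : b.re < 0 := lt_of_le_of_ne (not_lt.1 hb.2) k1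
    refine ⟨?_, ?_, ?_⟩
    · simpa using k4
    · simpa using k2
    · simpa using k3)
  rw [Finset.sum_image (fun a _ b _ hab => hinj hab)] at h2
  have h3 : ∑ a ∈ A.filter (fun a => ¬ 0 < a.re), analyticOrderNatAt (sh X h u) (-(conj a)) =
      ∑ a ∈ A.filter (fun a => ¬ 0 < a.re), analyticOrderNatAt (sh X h u) a :=
    Finset.sum_congr rfl fun a _ => ord_symm hfd hu0 (sh_symm hX.symm hu) a
  rw [h3] at h2
  rw [← Finset.sum_filter_add_sum_filter_not A (fun a => 0 < a.re)]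
  have hfinT := fin_T hX hD t1 t2
  have hf1 : {s | X s = 0 ∧ h < s.re ∧ t1 < s.im ∧ s.im < t2}.Finite :=
    hfinT.subset fun s hs => ⟨hs.1, hs.2.2.1.le, hs.2.2.2.le⟩
  have hf2 : {s | X s = 0 ∧ h < |s.re| ∧ t1 < s.im ∧ s.im < t2}.Finite :=
    hfinT.subset fun s hs => ⟨hs.1, hs.2.2.1.le, hs.2.2.2.le⟩
  have h4 : nu X {s | X s = 0 ∧ h < s.re ∧ t1 < s.im ∧ s.im < t2} +
      nu X {s | X s = 0 ∧ h < s.re ∧ t1 < s.im ∧ s.im < t2} ≤
      nu X {s | X s = 0 ∧ h < |s.re| ∧ t1 < s.im ∧ s.im < t2} := by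
    rw [nu_eq hf1]
    have h5 : ∑ s ∈ hf1.toFinset, analyticOrderNatAt X s =
        ∑ s ∈ hf1.toFinset.image (fun z => -(conj z)), analyticOrderNatAt X s := by
      rw [Finset.sum_image (fun a _ b _ hab => hinj hab)]
      exact Finset.sum_congr rfl fun a _ => (ord_symm hX.diff one_ne_zero
        (fun z => by rw [one_mul]; exact hX.symm z) a).symm
    conv_lhs => rw [h5]
    conv_lhs => enter [2]; rw [← h5]
    rw [add_comm, ← Finset.sum_union]
    · refine le_nu hf2 _ fun s hs => ?_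
      rcases Finset.mem_union.1 hs with hs | hs
      · rw [Set.Finite.mem_toFinset] at hs
        exact ⟨hs.1, lt_of_lt_of_le hs.2.1 (le_abs_self _), hs.2.2⟩
      · obtain ⟨w, hw, rfl⟩ := Finset.mem_image.1 hs
        rw [Set.Finite.mem_toFinset] at hw
        obtain ⟨k1, k2, k3⟩ := hw
        refine ⟨?_, ?_, ?_⟩
        · rw [hX.symm, k1, map_zero]
        · have : (-(conj w)).re = -w.re := by simp
          rw [this, abs_neg]
          exact lt_of_lt_of_le k2 (le_abs_self _)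
        · have : (-(conj w)).im = w.im := by simp
          rw [this]
          exact k3
    · rw [Finset.disjoint_left]
      intro s hs1 hs2
      rw [Set.Finite.mem_toFinset] at hs1
      obtain ⟨w, hw, hws⟩ := Finset.mem_image.1 hs2
      rw [Set.Finite.mem_toFinset] at hw
      have k1 : s.re = -w.re := by
        rw [← hws]
        simp
      have k2 := hs1.2.1
      have k3 := hw.2.1
      linarith
  exact (add_le_add h1 h2).trans h4

end

end Pool.Agent.N76.SH
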