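import Pool.Agent.N76.SH.Two

set_option autoImplicit false

/-!
# Zeros on the line are simple outside the discs
-/

namespace Pool.Agent.N76.SH

open Filter Complex Topology Set
open Pool.Agent.R838.TW (Sy)
open scoped ComplexConjugate

noncomputable section

lemma deriv_nonneg_right {f : ℝ → ℝ} {f' : ℝ} (hf : HasDerivAt f f' 0) (h : ∀ s, 0 < s → f 0 ≤ f s) : 0 ≤ f' := by
  have h1 := hf.tendsto_slope_zero_right
  refine ge_of_tendsto h1 ?_
  filter_upwards [self_mem_nhdsWithin] with s hs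
  have hs' : (0 : ℝ) < s := hs
  rw [zero_add, smul_eq_mul]
  exact mul_nonneg (by positivity) (sub_nonneg.2 (h s hs'))

theorem logd_nonneg {Φ : ℂ → ℂ} (hΦ : Sy Φ) {w : ℂ} (hw : w ∈ Dom Φ 0) (hre : 0 ≤ w.re) :
    0 ≤ (deriv Φ w / Φ w).re := by
  have h1 : HasDerivAt (fun s : ℝ => Φ (w + s)) (deriv Φ w) 0 := by
    have h2 : HasDerivAt (fun s : ℂ => Φ (w + s)) (deriv Φ (w + 0)) ((0 : ℝ) : ℂ) := by
      have := (hΦ.diff (w + ((0 : ℝ) : ℂ))).hasDerivAt.comp_const_add w ((0 : ℝ) : ℂ)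
      simpa using this
    rw [add_zero] at h2
    exact h2.comp_ofReal
  have h2 := h1.norm_sq
  have h3 := deriv_nonneg_right h2 (fun s hs => by
    have h4 := two_le hΦ (t := w.im) (a := w.re) (b := w.re + s) (by nlinarith)
      (fun c hc => by
        have := hw c hc
        nlinarith)
    have e1 : ((w.re : ℝ) : ℂ) + w.im * I = w := Complex.re_add_im w
    have e2 : ((w.re + s : ℝ) : ℂ) + w.im * I = w + s := by
      apply Complex.ext <;> simp
    rw [e1, e2] at h4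
    have e3 : w + ((0 : ℝ) : ℂ) = w := by simp
    simp only [e3]
    exact pow_le_pow_left₀ (norm_nonneg _) h4 2)
  have e3 : w + ((0 : ℝ) : ℂ) = w := by simp
  rw [Complex.inner, e3] at h3
  have h5 : (deriv Φ w / Φ w).re = (conj (Φ w) * deriv Φ w).re / Complex.normSq (Φ w) := by
    rw [Complex.div_re, Complex.mul_re, Complex.conj_re, Complex.conj_im]
    ring
  rw [h5]
  have h6 : 0 ≤ (conj (Φ w) * deriv Φ w).re := by
    rw [mul_comm]
    linarith
  exact div_nonneg h6 (Complex.normSq_nonneg _)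

theorem logd_pos {Φ : ℂ → ℂ} (hΦ : Sy Φ) {D : ℝ} (hD : ∀ b, Φ b = 0 → |b.re| ≤ D) (hz0 : ∃ b, Φ b = 0)
    {w : ℂ} (hw : w ∈ Dom Φ 0) (hre : 0 < w.re) : 0 < (deriv Φ w / Φ w).re := by
  refine lt_of_le_of_ne (logd_nonneg hΦ hw hre.le) fun heq => ?_
  have hnz : ∀ v ∈ Dom Φ 0, 0 < v.re → Φ v ≠ 0 := by
    intro v hv hv0
    have := ne_of_dom hv le_rfl hv0.le
    simpa using this
  have hev : ∀ᶠ v in 𝓝 w, v ∈ Dom Φ 0 ∧ 0 < v.re :=
    (show ∀ᶠ v in 𝓝 w, v ∈ Dom Φ 0 from (isOpen_Dom hΦ hD 0).mem_nhds hw).and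
      (continuous_re.continuousAt.eventually (lt_mem_nhds hre))
  have hΦ' : Differentiable ℂ (deriv Φ) := fun z => ((hΦ.diff.analyticAt z).deriv).differentiableAt
  obtain ⟨L, hL⟩ : ∃ L : ℂ → ℂ, L = fun v => deriv Φ v / Φ v := ⟨_, rfl⟩
  have hLd : ∀ᶠ v in 𝓝 w, DifferentiableAt ℂ L v := by
    filter_upwards [hev] with v hv
    rw [hL]
    exact (hΦ' v).div (hΦ.diff v) (hnz v hv.1 hv.2)
  have hmax : IsLocalMax (norm ∘ fun v => Complex.exp (-L v)) w := by
    filter_upwards [hev] with v hv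
    rw [Function.comp_apply, Function.comp_apply, Complex.norm_exp, Complex.norm_exp]
    refine Real.exp_le_exp.2 ?_
    rw [Complex.neg_re, Complex.neg_re, hL]
    simp only
    rw [← heq]
    have := logd_nonneg hΦ hv.1 hv.2.le
    linarith
  have hconst := Complex.eventually_eq_of_isLocalMax_norm
    (by
      filter_upwards [hLd] with v hv
      exact hv.neg.cexp) hmax
  have hLc : ContinuousAt L w := (hLd.self_of_nhds).continuousAt
  have hnear : ∀ᶠ v in 𝓝 w, ‖L v - L w‖ < 1 := by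
    have h1 : Tendsto (fun v => ‖L v - L w‖) (𝓝 w) (𝓝 ‖L w - L w‖) := (hLc.sub_const _).norm
    rw [sub_self, norm_zero] at h1
    exact h1.eventually (gt_mem_nhds zero_lt_one)
  have hLL : ∀ᶠ v in 𝓝 w, L v = L w := by
    filter_upwards [hconst, hnear] with v hv1 hv2
    have h1 : Complex.exp (L v - L w) = 1 := by
      have h2 : Complex.exp (L v - L w) = Complex.exp (-L w) / Complex.exp (-L v) := by
        rw [← Complex.exp_sub]
        congr 1
        ring
      rw [h2, hv1, div_self (Complex.exp_ne_zero _)]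
    obtain ⟨n, hn⟩ := Complex.exp_eq_one_iff.1 h1
    rw [hn] at hv2
    have h3 : n = 0 := by
      by_contra hne
      have h4 : (1 : ℝ) ≤ |(n : ℝ)| := by
        have := Int.one_le_abs hne
        exact_mod_cast this
      have h5 : ‖(n : ℂ) * (2 * Real.pi * I)‖ = |(n : ℝ)| * (2 * Real.pi) := by
        rw [norm_mul, norm_mul, norm_mul, Complex.norm_I, mul_one, Complex.norm_intCast, Complex.norm_real,
          Real.norm_eq_abs, abs_of_pos Real.pi_pos]
        simp
      rw [h5] at hv2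
      have := Real.pi_gt_three
      nlinarith
    rw [h3] at hn
    simp only [Int.cast_zero, zero_mul] at hn
    exact sub_eq_zero.1 hn
  obtain ⟨a, ha⟩ : ∃ a : ℂ, a = L w := ⟨_, rfl⟩
  have hE : deriv Φ =ᶠ[𝓝 w] fun v => a * Φ v := by
    filter_upwards [hLL, hev] with v hv1 hv2
    rw [ha, ← hv1, hL]
    simp only
    rw [div_mul_cancel₀ _ (hnz v hv2.1 hv2.2)]
  have hall : ∀ v, deriv Φ v = a * Φ v := by
    have a1 : AnalyticOnNhd ℂ (deriv Φ) univ := fun v _ => hΦ'.analyticAt v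
    have a2 : AnalyticOnNhd ℂ (fun v => a * Φ v) univ := fun v _ => (hΦ.diff.const_mul a).analyticAt v
    exact fun v => congrFun (a1.eq_of_eventuallyEq a2 hE) v
  have hE1 : ∀ v, HasDerivAt (fun v => Φ v * Complex.exp (-(a * v))) 0 v := by
    intro v
    have h1 : HasDerivAt (fun v => Complex.exp (-(a * v))) (Complex.exp (-(a * v)) * -(a * 1)) v := by
      have h2 : HasDerivAt (fun v : ℂ => -(a * v)) (-(a * 1)) v := ((hasDerivAt_id v).const_mul a).neg
      exact h2.cexp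
    have h2 := (hΦ.diff v).hasDerivAt.mul h1
    refine h2.congr_deriv ?_
    rw [hall v]
    ring
  have hconst2 := is_const_of_deriv_eq_zero (𝕜 := ℂ) (f := fun v => Φ v * Complex.exp (-(a * v)))
    (fun v => (hE1 v).differentiableAt) (fun v => (hE1 v).deriv)
  obtain ⟨b, hb⟩ := hz0
  obtain ⟨w1, hw1⟩ := hΦ.ne
  have h1 := hconst2 w1 b
  simp only [hb, zero_mul] at h1
  rcases mul_eq_zero.1 h1 with h2 | h2
  · exact hw1 h2
  · exact Complex.exp_ne_zero _ h2

lemma deriv_symm {Φ : ℂ → ℂ} (hs : ∀ z : ℂ, Φ (-(conj z)) = conj (Φ z)) (z : ℂ) :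
    deriv Φ (-(conj z)) = -conj (deriv Φ z) := by
  obtain ⟨Ψ, hΨ⟩ : ∃ Ψ : ℂ → ℂ, Ψ = conj ∘ Φ ∘ conj := ⟨_, rfl⟩
  have h1 : Φ = fun w => Ψ (-w) := by
    funext w
    rw [hΨ]
    simp only [Function.comp_apply]
    have := hs w
    rw [map_neg, this, Complex.conj_conj]
  have h2 : deriv Φ (-(conj z)) = -deriv Ψ (-(-(conj z))) := by
    conv_lhs => rw [h1]
    exact deriv_comp_neg _ _
  rw [h2, neg_neg, hΨ, deriv_conj_conj]
  simp

/-- **Zeros on the line outside the discs are simple.** -/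
theorem simple_of_dom {Φ : ℂ → ℂ} (hΦ : Sy Φ) {D : ℝ} (hD : ∀ b, Φ b = 0 → |b.re| ≤ D) (hz0 : ∃ b, Φ b = 0)
    {h : ℝ} {z u : ℂ} (hz : z ∈ Dom Φ h) (h0 : 0 < h) (hre : z.re = 0)
    (hF : Φ (z + h) + u * Φ (z - h) = 0) : deriv (fun s => Φ (s + h) + u * Φ (s - h)) z ≠ 0 := by
  intro hd
  have e : z - (h : ℂ) = -(conj (z + h)) := by
    apply Complex.ext
    · simp [hre]
    · simp
  have hw : z + h ∈ Dom Φ 0 := mem_Dom_mono hz (by simp [hre]) (by simp)
  have hpos := logd_pos hΦ hD hz0 hw (by simpa [hre] using h0)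
  have hne := ne_of_dom hz h0.le hre.ge
  have h1 : deriv (fun s => Φ (s + h) + u * Φ (s - h)) z = deriv Φ (z + h) + u * deriv Φ (z - h) := by
    have k1 := (hΦ.diff (z + h)).hasDerivAt.comp_add_const z (h : ℂ)
    have k2 := (hΦ.diff (z - h)).hasDerivAt.comp_sub_const z (h : ℂ)
    exact (k1.add (k2.const_mul u)).deriv
  rw [h1, e, deriv_symm hΦ.symm] at hd
  rw [e, hΦ.symm] at hF
  obtain ⟨p, hp⟩ : ∃ p : ℂ, p = Φ (z + h) := ⟨_, rfl⟩
  obtain ⟨d, hd'⟩ : ∃ d : ℂ, d = deriv Φ (z + h) := ⟨_, rfl⟩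
  rw [← hp] at hF hne hpos
  rw [← hd'] at hd hpos
  have h2 : conj p ≠ 0 := by
    rw [Ne, map_eq_zero]
    exact hne
  have h3 : d * conj p = -(p * conj d) := by
    have a1 : p = -(u * conj p) := by linear_combination hF
    have a2 : d = u * conj d := by linear_combination hd
    calc d * conj p = u * conj d * conj p := by rw [← a2]
      _ = -(-(u * conj p) * conj d) := by ring
      _ = -(p * conj d) := by rw [← a1]
  have h4 : d / p + conj (d / p) = 0 := by
    rw [map_div₀, div_add_div _ _ hne h2, h3]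
    simp
  rw [Complex.add_conj] at h4
  have h5 : (2 * (d / p).re : ℝ) = 0 := by exact_mod_cast h4
  linarith

end

end Pool.Agent.N76.SH
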