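import Pool.Agent.N76.SH.Cnt
import Pool.Agent.N76.SH.Simple

set_option autoImplicit false

/-!
# Geometry of the zeros of `X (z + h) + u X (z - h)` and the criteria
-/

namespace Pool.Agent.N76.SH

open Filter Complex Topology Set
open Pool.Agent.R838.TW (Sy)
open scoped ComplexConjugate

noncomputable section

variable {X : ℂ → ℂ} {D h : ℝ} {u : ℂ}

/-- zeros off the line -/
theorem re_zero_of_dom (hX : Sy X) (hD : ∀ b, X b = 0 → |b.re| ≤ D) (hz0 : ∃ b, X b = 0) (h0 : 0 < h)
    (hu : ‖u‖ = 1) {z : ℂ} (hz : z ∈ Dom X h) (hF : sh X h u z = 0) : z.re = 0 := by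
  have key : ∀ z : ℂ, z ∈ Dom X h → 0 < z.re → sh X h u z ≠ 0 := by
    intro z hz hre hF
    have h1 := lt_of_dom hX hD hz0 hz h0 hre
    unfold sh at hF
    have h2 : X (z + h) = -(u * X (z - h)) := by linear_combination hF
    rw [h2, norm_neg, norm_mul, hu, one_mul] at h1
    exact lt_irrefl _ h1
  rcases lt_trichotomy z.re 0 with h1 | h1 | h1
  · exfalso
    refine key (-(conj z)) (mem_Dom_mono hz (by simp) (by simp)) (by simpa using h1) ?_
    rw [sh_symm hX.symm hu, hF, map_zero, mul_zero]
  · exact h1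
  · exact absurd hF (key z hz h1)

/-- **The discs.** -/
theorem discs (hX : Sy X) (hD : ∀ b, X b = 0 → |b.re| ≤ D) (hz0 : ∃ b, X b = 0) (h0 : 0 < h)
    (hu : ‖u‖ = 1) {z : ℂ} (hF : sh X h u z = 0) (hz : z.re ≠ 0 ∨ deriv (sh X h u) z = 0) :
    ∃ b, X b = 0 ∧ z.re ^ 2 + (z.im - b.im) ^ 2 ≤ b.re ^ 2 - h ^ 2 := by
  by_contra hcon
  push Not at hcon
  have hdom : z ∈ Dom X h := by
    intro b hb
    have := hcon b hb
    linarith
  have h1 := re_zero_of_dom hX hD hz0 h0 hu hdom hF
  rcases hz with h2 | h2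
  · exact h2 h1
  · exact simple_of_dom hX hD hz0 hdom h0 h1 hF h2

/-- **The criterion for a zero-free strip.** -/
theorem strip_iff (hX : Sy X) (hD : ∀ b, X b = 0 → |b.re| ≤ D) (hz0 : ∃ b, X b = 0) (h0 : 0 < h) :
    (∀ b, X b = 0 → |b.re| ≤ h) ↔ ∀ u : ℂ, ‖u‖ = 1 → ∀ s, sh X h u s = 0 → s.re = 0 := by
  constructor
  · intro h1 u hu s hs
    by_contra hre
    obtain ⟨b, hb, h2⟩ := discs hX hD hz0 h0 hu hs (Or.inl hre)
    have h3 := abs_le_sq (h1 b hb)
    have h4 : 0 < s.re ^ 2 := by positivity
    nlinarith [sq_nonneg (s.im - b.im)]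
  · intro h1
    -- a zero with real part larger than `h` is impossible
    have key : ∀ b, X b = 0 → b.re ≤ h := by
      intro b hb
      by_contra hcon
      push Not at hcon
      obtain ⟨z, hz⟩ : ∃ z : ℝ → ℂ, z = fun x : ℝ => b - (h : ℂ) + (x : ℂ) := ⟨_, rfl⟩
      have hzre : ∀ x : ℝ, (z x).re = b.re - h + x := by
        intro x
        rw [hz]
        simp
      obtain ⟨g, hg⟩ : ∃ g : ℝ → ℝ, g = fun x => ‖X (z x + h)‖ - ‖X (z x - h)‖ := ⟨_, rfl⟩
      have hgc : Continuous g := by
        have := hX.diff.continuous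
        rw [hg, hz]
        fun_prop
      have hg0 : g 0 ≤ 0 := by
        rw [hg, hz]
        simp only [Complex.ofReal_zero, add_zero, sub_add_cancel]
        rw [hb, norm_zero]
        have := norm_nonneg (X (b - h - h))
        linarith
      have hg1 : 0 ≤ g (|D| + 1) := by
        have hre : (z (|D| + 1)).re = b.re - h + (|D| + 1) := hzre _
        have h2 := le_of_dom hX (z := z (|D| + 1)) (h := h) (fun c hc => by
          have k1 := abs_le_sq (hD c hc)
          have k2 : D ^ 2 < (b.re - h + (|D| + 1)) ^ 2 := by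
            rw [← sq_abs D]
            have := abs_nonneg D
            nlinarith
          rw [hre]
          nlinarith [sq_nonneg h, sq_nonneg ((z (|D| + 1)).im - c.im)]) h0.le (by
          rw [hre]
          have := abs_nonneg D
          linarith)
        rw [hg]
        simp only
        linarith
      obtain ⟨x, hx, hgx⟩ := intermediate_value_Icc (by positivity : (0 : ℝ) ≤ |D| + 1) hgc.continuousOn
        (show (0 : ℝ) ∈ Icc (g 0) (g (|D| + 1)) from ⟨hg0, hg1⟩)
      have hxre : 0 < (z x).re := by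
        rw [hzre]
        linarith [hx.1]
      have heq : ‖X (z x + h)‖ = ‖X (z x - h)‖ := by
        rw [hg] at hgx
        simp only at hgx
        linarith
      by_cases hm : X (z x - h) = 0
      · have hp : X (z x + h) = 0 := by
          rw [hm, norm_zero] at heq
          exact norm_eq_zero.1 heq
        have h3 := h1 1 (by simp) (z x) (by
          unfold sh
          rw [hm, hp]
          simp)
        rw [h3] at hxre
        exact lt_irrefl _ hxre
      · have h3 := h1 (-(X (z x + h) / X (z x - h))) (by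
          rw [norm_neg, norm_div, heq, div_self (norm_ne_zero_iff.2 hm)]) (z x) (by
          unfold sh
          field_simp
          ring)
        rw [h3] at hxre
        exact lt_irrefl _ hxre
    intro b hb
    rw [abs_le]
    refine ⟨?_, key b hb⟩
    have := key (-(conj b)) (by rw [hX.symm, hb, map_zero])
    simp at this
    linarith

/-- zeros off the line survive small shifts -/
theorem zero_of_small (hX : Sy X) (hu1 : u ≠ -1)
    (hf : ∀ ε : ℝ, 0 < ε → ∃ h : ℝ, 0 < h ∧ h < ε ∧ ∀ s, sh X h u s = 0 → s.re = 0) :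
    ∀ b, X b = 0 → b.re = 0 := by
  classical
  intro b hb
  by_contra hre
  have hk : (1 + u) ≠ 0 := by
    intro h1
    apply hu1
    linear_combination h1
  have hfd : Differentiable ℂ fun z => (1 + u) * X z := hX.diff.const_mul _
  obtain ⟨w, hw⟩ := hX.ne
  have hU : IsOpen {z : ℂ | z.re ≠ 0} := isOpen_ne_fun continuous_re continuous_const
  obtain ⟨K, hK, ε, hε, hper⟩ := persist hfd ⟨w, mul_ne_zero hk hw⟩ hU {b} (fun a ha => by
    rw [Finset.mem_singleton] at ha
    rw [ha]
    exact hre)
  have hev : ∀ᶠ p : ℝ in 𝓝 0, ∀ z ∈ K, ‖(1 + u) * X z - sh X p u z‖ < ε := by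
    refine hK.eventually_forall_of_forall_eventually fun z _ => ?_
    have hc : Continuous fun q : ℝ × ℂ => ‖(1 + u) * X q.2 - sh X q.1 u q.2‖ := by
      have := hX.diff.continuous
      unfold sh
      fun_prop
    refine hc.continuousAt.eventually (gt_mem_nhds ?_)
    have e : (1 + u) * X z - sh X 0 u z = 0 := by
      unfold sh
      simp only [Complex.ofReal_zero, add_zero, sub_zero]
      ring
    simp only
    rw [e, norm_zero]
    exact hε
  rw [Metric.eventually_nhds_iff] at hev
  obtain ⟨δ, hδ, hev⟩ := hev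
  obtain ⟨p, hp0, hpδ, hp⟩ := hf δ hδ
  obtain ⟨B, hB, hsum⟩ := hper _ (sh_diff hX.diff p u) (hev (by
    rw [Real.dist_eq, sub_zero, abs_of_pos hp0]
    exact hpδ))
  rw [Finset.sum_singleton, ord_const_mul hX.diff hk] at hsum
  have hpos : 0 < analyticOrderNatAt X b := by
    rw [Nat.pos_iff_ne_zero]
    intro h1
    have h2 := order_top hX.diff ⟨w, hw⟩ b
    have h3 : analyticOrderAt X b = 0 := by
      rw [← Nat.cast_analyticOrderNatAt h2, h1]
      rfl
    exact ((hX.diff.analyticAt b).analyticOrderAt_eq_zero.1 h3) hb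
  rw [hsum] at hpos
  have hBne : B.Nonempty := by
    rw [Finset.nonempty_iff_ne_empty]
    intro h1
    rw [h1, Finset.sum_empty] at hpos
    exact lt_irrefl _ hpos
  obtain ⟨b', hb'⟩ := hBne
  exact (hB b' hb').1 (hp b' (hB b' hb').2)

end

end Pool.Agent.N76.SH
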