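import Pool.Agent.N76.SH.Crit
import Pool.Agent.Y22.RX2

set_option autoImplicit false

/-!
# Existence of good heights
-/

namespace Pool.Agent.N76.SH

open Filter Complex Topology Set MeasureTheory
open Pool.Agent.R838.TW (Sy)
open Pool.Agent.Y22.RX (S)
open scoped ComplexConjugate

noncomputable section

variable {X : ℂ → ℂ}

/-- zeros counted without and with multiplicity -/
theorem card_le {g : ℂ → ℂ} (hg : Differentiable ℂ g) (hne : ∃ z, g z ≠ 0) (A : Finset ℂ)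
    (hz : ∀ z ∈ A, g z = 0) : A.card ≤ ∑ z ∈ A, analyticOrderNatAt g z := by
  rw [Finset.card_eq_sum_ones]
  refine Finset.sum_le_sum fun z hz' => ?_
  by_contra hlt
  push Not at hlt
  have h6 : analyticOrderNatAt g z = 0 := by omega
  have h7 : analyticOrderAt g z = 0 := by
    rw [← Nat.cast_analyticOrderNatAt (order_top hg hne z), h6]
    rfl
  exact ((hg.analyticAt z).analyticOrderAt_eq_zero.mp h7) (hz z hz')

lemma small_ex {c C : ℝ} (hc : 0 < c) : ∃ K0 : ℝ, 0 < K0 ∧ ∀ R : ℝ, K0 ≤ R →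
    6 * C * (Real.exp (-(c * R)) * (R + 1 / c)) < 1 := by
  have h1 : Tendsto (fun R : ℝ => (c * R) ^ 1 * Real.exp (-(c * R))) atTop (𝓝 0) := by
    have := (Real.tendsto_pow_mul_exp_neg_atTop_nhds_zero 1).comp (tendsto_id.const_mul_atTop hc)
    exact this
  have h2 : Tendsto (fun R : ℝ => Real.exp (-(c * R))) atTop (𝓝 0) := by
    have := Real.tendsto_exp_neg_atTop_nhds_zero.comp (tendsto_id.const_mul_atTop hc)
    exact this
  have h3 : Tendsto (fun R : ℝ => 6 * C * (1 / c * ((c * R) ^ 1 * Real.exp (-(c * R))) + 1 / c * Real.exp (-(c * R))))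
      atTop (𝓝 (6 * C * (1 / c * 0 + 1 / c * 0))) := ((h1.const_mul _).add (h2.const_mul _)).const_mul _
  rw [show 6 * C * (1 / c * 0 + 1 / c * 0) = 0 by ring] at h3
  obtain ⟨K, hK⟩ := (h3.eventually (gt_mem_nhds zero_lt_one)).exists_forall_of_atTop
  refine ⟨max K 1, lt_max_of_lt_right one_pos, fun R hR => ?_⟩
  have h4 := hK R ((le_max_left _ _).trans hR)
  refine lt_of_eq_of_lt ?_ h4
  field_simp
  try ring

/-- good heights exist -/
theorem good_ex (hX : Sy X) (hD : ∀ b, X b = 0 → |b.re| ≤ 1 / 2) {c C : ℝ} (hc : 0 < c) (hC : 0 < C)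
    (hcount : ∀ d T : ℝ, 0 ≤ d → 2 ≤ T → (nu X (S X d T) : ℝ) ≤ C * T ^ (1 - c * d) * Real.log T) :
    ∃ K0 : ℝ, 0 < K0 ∧ ∀ h T : ℝ, 0 < h → 2 ≤ T → K0 ≤ h * Real.log T →
      ∃ t : ℝ, T ≤ t ∧ t ≤ 2 * T ∧ (t * I : ℂ) ∈ Dom X h := by
  classical
  obtain ⟨K0, hK0, hK⟩ := small_ex (C := C) hc
  refine ⟨K0, hK0, fun h T h0 hT hlog => ?_⟩
  by_contra hcon
  push Not at hcon
  have hT0 : 0 < T := by linarith
  obtain ⟨T', hT'⟩ : ∃ T' : ℝ, T' = 3 * T := ⟨_, rfl⟩
  have hT'2 : 2 ≤ T' := by linarith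
  have hT'0 : 0 < T' := by linarith
  obtain ⟨L, hL⟩ : ∃ L : ℝ, L = Real.log T' := ⟨_, rfl⟩
  have hL0 : 0 < L := by
    rw [hL]
    exact Real.log_pos (by linarith)
  have hLT : Real.log T ≤ L := by
    rw [hL]
    exact Real.log_le_log hT0 (by linarith)
  have hfin : ∀ d T : ℝ, (S X d T).Finite := fun d T =>
    (fin_T hX hD 0 T).subset fun s hs => ⟨hs.1, hs.2.2.1.le, hs.2.2.2⟩
  obtain ⟨Z, hZ⟩ : ∃ Z : Finset ℂ, Z = (hfin h T').toFinset := ⟨_, rfl⟩
  have hmem : ∀ b, b ∈ Z ↔ b ∈ S X h T' := fun b => by rw [hZ, Set.Finite.mem_toFinset]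
  have hcnt : ∀ u : ℝ, h ≤ u → ((Z.filter (fun b => u ≤ |b.re|)).card : ℝ) ≤
      (C * T' * L) * Real.exp (-((c * L) * u)) := by
    intro u hu
    have h1 : (Z.filter (fun b => u ≤ |b.re|)).card ≤ nu X (S X u T') := by
      refine (card_le hX.diff hX.ne _ fun z hz => ?_).trans (le_nu (hfin u T') _ fun b hb => ?_)
      · rw [Finset.mem_filter, hmem] at hz
        exact hz.1.1
      · rw [Finset.mem_filter, hmem] at hb
        exact ⟨hb.1.1, hb.2, hb.1.2.2.1, hb.1.2.2.2⟩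
    have h2 := hcount u T' (h0.le.trans hu) hT'2
    have h3 : T' ^ (1 - c * u) = T' * Real.exp (-(c * L * u)) := by
      rw [Real.rpow_def_of_pos hT'0, ← hL]
      have : L * (1 - c * u) = L + -(c * L * u) := by ring
      rw [this, Real.exp_add, hL, Real.exp_log hT'0]
    rw [h3, ← hL] at h2
    calc ((Z.filter (fun b => u ≤ |b.re|)).card : ℝ) ≤ nu X (S X u T') := by exact_mod_cast h1
      _ ≤ C * (T' * Real.exp (-(c * L * u))) * L := h2
      _ = _ := by ring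
  have hsum := Pool.Agent.Y22.RX.sum_le Z (fun b => |b.re|) (h0 := h) (A := C * T' * L) (a := c * L)
    (by positivity) h0.le (by positivity) (fun b hb => ((hmem b).mp hb).2.1) hcnt
  have hsub : Icc T (2 * T) ⊆ ⋃ b ∈ Z, Set.Icc (b.im - |b.re|) (b.im + |b.re|) := by
    intro t ht
    have h1 := hcon t ht.1 ht.2
    unfold Dom at h1
    rw [Set.mem_ofPred_eq] at h1
    push Not at h1
    obtain ⟨b, hb, hb2⟩ := h1
    have e1 : ((t : ℂ) * I).re = 0 := by simp
    have e2 : ((t : ℂ) * I).im = t := by simp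
    rw [e1, e2] at hb2
    have h2 := hD b hb
    have h3 : |t - b.im| ≤ |b.re| := by
      rw [← sq_le_sq]
      nlinarith [sq_nonneg h]
    have h4 : h ≤ |b.re| := by
      have : h ^ 2 ≤ b.re ^ 2 := by nlinarith [sq_nonneg (t - b.im)]
      rw [sq_le_sq, abs_of_pos h0] at this
      exact this
    have h5 := abs_le.1 h3
    refine Set.mem_biUnion (x := b) ?_ ⟨by linarith [h5.2], by linarith [h5.1]⟩
    rw [Finset.mem_coe, hmem]
    exact ⟨hb, h4, by linarith [h5.2, ht.1], by linarith [h5.1, ht.2]⟩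
  have hm := (measure_mono hsub).trans (measure_biUnion_finset_le (μ := volume) Z _)
  have h5 : ∑ b ∈ Z, volume (Set.Icc (b.im - |b.re|) (b.im + |b.re|)) = ENNReal.ofReal (2 * ∑ b ∈ Z, |b.re|) := by
    rw [Finset.mul_sum, ENNReal.ofReal_sum_of_nonneg (fun b _ => by positivity)]
    refine Finset.sum_congr rfl fun b _ => ?_
    rw [Real.volume_Icc]
    congr 1
    ring
  rw [h5, Real.volume_Icc, ENNReal.ofReal_le_ofReal_iff (by positivity)] at hm
  have h6 := hK (h * L) (hlog.trans (mul_le_mul_of_nonneg_left hLT h0.le))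
  have h7 : (C * T' * L) * Real.exp (-((c * L) * h)) * (h + 1 / (c * L)) =
      C * T' * (Real.exp (-(c * (h * L))) * (h * L + 1 / c)) := by
    have : Real.exp (-((c * L) * h)) = Real.exp (-(c * (h * L))) := by
      congr 1
      ring
    rw [this]
    field_simp
  rw [h7, hT'] at hsum
  have h8 : 2 * (C * (3 * T) * (Real.exp (-(c * (h * L))) * (h * L + 1 / c))) =
      T * (6 * C * (Real.exp (-(c * (h * L))) * (h * L + 1 / c))) := by ring
  have h9 : T * (6 * C * (Real.exp (-(c * (h * L))) * (h * L + 1 / c))) < T * 1 := mul_lt_mul_of_pos_left h6 hT0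
  linarith

theorem sh_ne (hX : Sy X) {D : ℝ} (hD : ∀ b, X b = 0 → |b.re| ≤ D) (hz0 : ∃ b, X b = 0) {h : ℝ} (h0 : 0 < h)
    {u : ℂ} (hu : ‖u‖ = 1) : ∃ w, sh X h u w ≠ 0 := by
  refine ⟨((|D| + 1 : ℝ) : ℂ), fun h1 => ?_⟩
  have h2 := re_zero_of_dom hX hD hz0 h0 hu (z := ((|D| + 1 : ℝ) : ℂ)) (fun b hb => by
    have k1 := abs_le_sq (hD b hb)
    rw [Complex.ofReal_re]
    have k2 : D ^ 2 < (|D| + 1) ^ 2 := by
      rw [← sq_abs D]
      have := abs_nonneg D
      nlinarith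
    nlinarith [sq_nonneg h, sq_nonneg ((((|D| + 1 : ℝ) : ℂ)).im - b.im)]) h1
  rw [Complex.ofReal_re] at h2
  have := abs_nonneg D
  linarith

end

end Pool.Agent.N76.SH
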