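import Pool.Agent.N76.SH.Mul

set_option autoImplicit false

/-!
# Density of the zeros of `X (z + h) + u X (z - h)` which are multiple or off the imaginary axis
-/

namespace Pool.Agent.N76.SH

open Filter Complex Topology Set MeasureTheory
open Pool.Agent.R838.TW (Sy)
open Pool.Agent.Y22.RX (S)
open scoped ComplexConjugate

noncomputable section

variable {X : ℂ → ℂ}

/-- zeros off the line or multiple -/
def Ex (X : ℂ → ℂ) (h : ℝ) (u : ℂ) (T : ℝ) : Set ℂ :=
  {s | sh X h u s = 0 ∧ (s.re ≠ 0 ∨ deriv (sh X h u) s = 0) ∧ |s.im| ≤ T}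

theorem Ex_fin (hX : Sy X) {D : ℝ} (hD : ∀ b, X b = 0 → |b.re| ≤ D) (hz0 : ∃ b, X b = 0) {h : ℝ} (h0 : 0 < h)
    {u : ℂ} (hu : ‖u‖ = 1) (T : ℝ) : (Ex X h u T).Finite := by
  obtain ⟨w, hw⟩ := sh_ne hX hD hz0 h0 hu
  have hK : IsCompact (Icc (-|D|) |D| ×ℂ Icc (-T) T) := isCompact_Icc.reProdIm isCompact_Icc
  refine (Pool.Agent.W605.SD.fin_zeros (sh_diff hX.diff h u) hw hK).subset ?_
  rintro s ⟨h1, h2, h3⟩
  refine ⟨?_, h1⟩
  rw [mem_reProdIm]
  obtain ⟨b, hb, h4⟩ := discs hX hD hz0 h0 hu h1 h2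
  have h5 := abs_le_sq (hD b hb)
  have h6 : |s.re| ≤ |D| := by
    rw [← sq_le_sq]
    nlinarith [sq_nonneg (s.im - b.im), sq_nonneg h]
  exact ⟨abs_le.1 h6, abs_le.1 h3⟩

/-- multiple zeros and zeros off the line between good heights -/
theorem ex_le (hX : Sy X) {D : ℝ} (hD : ∀ b, X b = 0 → |b.re| ≤ D) (hz0 : ∃ b, X b = 0) {h : ℝ} (h0 : 0 < h)
    {t1 t2 : ℝ} (h12 : t1 < t2) (g1 : (t1 * I : ℂ) ∈ Dom X h) (g2 : (t2 * I : ℂ) ∈ Dom X h) {u : ℂ} (hu : ‖u‖ = 1)
    (A : Finset ℂ) (hA : ∀ a ∈ A, sh X h u a = 0 ∧ (a.re ≠ 0 ∨ deriv (sh X h u) a = 0) ∧ t1 < a.im ∧ a.im < t2) :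
    ∑ a ∈ A, analyticOrderNatAt (sh X h u) a ≤ 2 * nu X {s | X s = 0 ∧ h ≤ |s.re| ∧ t1 < s.im ∧ s.im < t2} := by
  classical
  have h1 := tot_le hX hD hz0 h0 h12 g1 g2 hu A fun a ha => (hA a ha).2.2
  have hfd := sh_diff hX.diff h u
  have hne := sh_ne hX hD hz0 h0 hu
  have h2 : 2 * (A.filter fun a => a.re = 0).card ≤ ∑ a ∈ A, analyticOrderNatAt (sh X h u) a := by
    refine le_trans ?_ (Finset.sum_le_sum_of_subset (Finset.filter_subset (fun a => a.re = 0) A))
    rw [mul_comm, ← smul_eq_mul, ← Finset.sum_const]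
    refine Finset.sum_le_sum fun a ha => ?_
    rw [Finset.mem_filter] at ha
    obtain ⟨k1, k2, -⟩ := hA a ha.1
    have k3 := k2.resolve_left (by rw [not_not]; exact ha.2)
    by_contra hlt
    push Not at hlt
    have h6 : analyticOrderNatAt (sh X h u) a ≠ 0 := by
      intro h6
      have h7 : analyticOrderAt (sh X h u) a = 0 := by
        rw [← Nat.cast_analyticOrderNatAt (order_top hfd hne a), h6]
        rfl
      exact ((hfd.analyticAt a).analyticOrderAt_eq_zero.mp h7) k1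
    have h7 : analyticOrderNatAt (sh X h u) a = 1 := by omega
    have h8 : analyticOrderAt (sh X h u) a = (1 : ℕ) := by
      rw [← Nat.cast_analyticOrderNatAt (order_top hfd hne a), h7]
    obtain ⟨g, hg, hg0, hgf⟩ := ((hfd.analyticAt a).analyticOrderAt_eq_natCast).1 h8
    have h9 : HasDerivAt (fun z => (z - a) ^ 1 • g z) (g a) a := by
      have e1 : HasDerivAt (fun z : ℂ => z - a) 1 a := (hasDerivAt_id a).sub_const a
      have e2 := e1.mul hg.differentiableAt.hasDerivAt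
      simp only [sub_self, zero_mul, add_zero, one_mul] at e2
      refine e2.congr_of_eventuallyEq (Eventually.of_forall fun z => ?_)
      simp
    have h10 : deriv (sh X h u) a = g a := (h9.congr_of_eventuallyEq hgf).deriv
    rw [k3] at h10
    exact hg0 h10.symm
  omega

/-- **Density theorem.** -/
theorem ex_count (hX : Sy X) (hD : ∀ b, X b = 0 → |b.re| ≤ 1 / 2) (hz0 : ∃ b, X b = 0)
    (hr : ∃ k : ℂ, k ≠ 0 ∧ ∀ z, X (-z) = k * X z)
    (hcount : ∀ c : ℝ, c < 1 → ∃ C : ℝ, 0 < C ∧ ∀ d T : ℝ, 0 ≤ d → 2 ≤ T →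
      (nu X (S X d T) : ℝ) ≤ C * T ^ (1 - c * d) * Real.log T) {c : ℝ} (hc : c < 1) :
    ∃ C : ℝ, 0 < C ∧ ∀ h T : ℝ, 0 < h → 2 ≤ T → C ≤ h * Real.log T → ∀ u : ℂ, ‖u‖ = 1 →
      (nu (sh X h u) (Ex X h u T) : ℝ) ≤ C * T ^ (1 - c * h) * Real.log T := by
  classical
  obtain ⟨C1, hC1, hcnt1⟩ := hcount (1 / 2) (by norm_num)
  obtain ⟨K0, hK0, hgood⟩ := good_ex hX hD (by norm_num : (0 : ℝ) < 1 / 2) hC1 hcnt1
  obtain ⟨C2, hC2, hcnt2⟩ := hcount c hc
  obtain ⟨k, hk, hneg⟩ := hr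
  -- symmetry in the real axis
  have hrefl : ∀ z, X (conj z) = k * conj (X z) := by
    intro z
    have h1 := hneg (-(conj z))
    rw [neg_neg, hX.symm] at h1
    exact h1
  have hconj0 : ∀ z, X z = 0 → X (conj z) = 0 := by
    intro z hz
    rw [hrefl, hz, map_zero, mul_zero]
  have hneg0 : ∀ z, X z = 0 → X (-z) = 0 := by
    intro z hz
    rw [hneg, hz, mul_zero]
  have hordneg : ∀ z, analyticOrderNatAt X (-z) = analyticOrderNatAt X z := by
    intro z
    have h1 : analyticOrderNatAt (fun s => X (-s)) z = analyticOrderNatAt X (-z) := by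
      have ha : AnalyticAt ℂ (fun s : ℂ => -s) z := by fun_prop
      have hd : deriv (fun s : ℂ => -s) z ≠ 0 := by
        rw [deriv_neg]
        norm_num
      have := analyticOrderAt_comp_of_deriv_ne_zero (f := X) ha hd
      unfold analyticOrderNatAt
      rw [← this]
      rfl
    rw [← h1]
    have h2 : (fun s => X (-s)) = fun s => k * X s := funext hneg
    rw [h2, ord_const_mul hX.diff hk]
  have hdomneg : ∀ (t h : ℝ), (t * I : ℂ) ∈ Dom X h → ((-t : ℝ) * I : ℂ) ∈ Dom X h := by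
    intro t h ht b hb
    have h1 := ht (conj b) (hconj0 b hb)
    simp at h1 ⊢
    nlinarith
  have hR : {s : ℂ | X s = 0 ∧ (0 : ℝ) ≤ s.im ∧ s.im ≤ 0}.Finite := fin_T hX hD 0 0
  obtain ⟨K1, hK1⟩ : ∃ K1 : ℝ, K1 = nu X {s : ℂ | X s = 0 ∧ (0 : ℝ) ≤ s.im ∧ s.im ≤ 0} := ⟨_, rfl⟩
  have hK10 : 0 ≤ K1 := by rw [hK1]; positivity
  have hl2 : 0 < Real.log 2 := Real.log_pos (by norm_num)
  refine ⟨max K0 (8 * 2 ^ (1 + |c|) * C2 + 2 * (K1 / Real.log 2) + 1), lt_max_of_lt_left hK0, fun h T h0 hT hlog u hu => ?_⟩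
  have hT0 : 0 < T := by linarith
  have hT1 : (1 : ℝ) ≤ T := by linarith
  have hlT : Real.log 2 ≤ Real.log T := Real.log_le_log (by norm_num) hT
  have hlT0 : 0 < Real.log T := hl2.trans_le hlT
  have hEfin := Ex_fin hX hD hz0 h0 hu T
  have hCpos : (0 : ℝ) < 8 * 2 ^ (1 + |c|) * C2 + 2 * (K1 / Real.log 2) + 1 := by positivity
  have hTp : (0 : ℝ) < T ^ (1 - c * h) := by positivity
  rcases lt_or_ge (1 / 2) h with hh | hh
  · -- no exceptional zeros
    have h1 : Ex X h u T = ∅ := by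
      rw [Set.eq_empty_iff_forall_notMem]
      rintro s ⟨h1, h2, -⟩
      obtain ⟨b, hb, h4⟩ := discs hX hD hz0 h0 hu h1 h2
      have h5 := abs_le_sq (hD b hb)
      nlinarith [sq_nonneg (s.im - b.im), sq_nonneg s.re]
    rw [h1]
    have h2 : (nu (sh X h u) ∅ : ℝ) = 0 := by
      unfold nu
      simp
    rw [h2]
    positivity
  · obtain ⟨t, ht1, ht2, htD⟩ := hgood h T h0 hT ((le_max_left _ _).trans hlog)
    have htD' := hdomneg t h htD
    have ht0 : 0 < t := by linarith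
    -- the zeros of `X` with `|Re| > h`, `|Im| < t`
    have hfinT := fin_T hX hD (-t) t
    have hfS : {s | X s = 0 ∧ h ≤ |s.re| ∧ -t < s.im ∧ s.im < t}.Finite :=
      hfinT.subset fun s hs => ⟨hs.1, hs.2.2.1.le, hs.2.2.2.le⟩
    have hSfin : (S X h t).Finite :=
      (fin_T hX hD 0 t).subset fun s hs => ⟨hs.1, hs.2.2.1.le, hs.2.2.2⟩
    have h1' : nu (sh X h u) (Ex X h u T) ≤ 2 * nu X {s | X s = 0 ∧ h ≤ |s.re| ∧ -t < s.im ∧ s.im < t} := by
      refine nu_le hEfin fun A hA => ?_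
      refine ex_le hX hD hz0 h0 (by linarith) (by simpa using htD') htD hu A fun a ha => ?_
      obtain ⟨k1, k2, k3⟩ := hA a ha
      have k4 := abs_le.1 k3
      -- there are no exceptional zeros at a good height
      have k5 : ∀ t' : ℝ, (t' * I : ℂ) ∈ Dom X h → a.im ≠ t' := by
        intro t' ht' hat
        obtain ⟨b, hb, h4⟩ := discs hX hD hz0 h0 hu k1 k2
        have h5 := ht' b hb
        have e1 : ((t' : ℂ) * I).re = 0 := by simp
        have e2 : ((t' : ℂ) * I).im = t' := by simp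
        rw [e1, e2] at h5
        rw [hat] at h4
        nlinarith [sq_nonneg a.re]
      exact ⟨k1, k2, lt_of_le_of_ne (by linarith [k4.1]) (Ne.symm (k5 _ (by simpa using htD'))),
        lt_of_le_of_ne (by linarith [k4.2]) (k5 _ htD)⟩
    -- split into positive, zero and negative imaginary part
    have h3 : nu X {s | X s = 0 ∧ h ≤ |s.re| ∧ -t < s.im ∧ s.im < t} ≤
        nu X (S X h t) + nu X (S X h t) + nu X {s : ℂ | X s = 0 ∧ (0 : ℝ) ≤ s.im ∧ s.im ≤ 0} := by
      refine nu_le hfS fun A hA => ?_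
      rw [← Finset.sum_filter_add_sum_filter_not A (fun a => 0 < a.im),
        ← Finset.sum_filter_add_sum_filter_not (A.filter (fun a => ¬ 0 < a.im)) (fun a => a.im < 0), ← add_assoc]
      refine add_le_add (add_le_add ?_ ?_) ?_
      · refine le_nu hSfin _ fun s hs => ?_
        rw [Finset.mem_filter] at hs
        obtain ⟨k1, k2, k3, k4⟩ := hA s hs.1
        exact ⟨k1, k2, hs.2, k4.le⟩
      · have h4 : ∑ a ∈ (A.filter (fun a => ¬ 0 < a.im)).filter (fun a => a.im < 0), analyticOrderNatAt X a =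
            ∑ a ∈ ((A.filter (fun a => ¬ 0 < a.im)).filter (fun a => a.im < 0)).image (fun z => -z),
              analyticOrderNatAt X a := by
          rw [Finset.sum_image (fun a _ b _ hab => neg_injective hab)]
          exact Finset.sum_congr rfl fun a _ => (hordneg a).symm
        rw [h4]
        refine le_nu hSfin _ fun s hs => ?_
        obtain ⟨w, hw, rfl⟩ := Finset.mem_image.1 hs
        rw [Finset.mem_filter, Finset.mem_filter] at hw
        obtain ⟨k1, k2, k3, k4⟩ := hA w hw.1.1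
        refine ⟨hneg0 w k1, ?_, ?_, ?_⟩
        · rw [Complex.neg_re, abs_neg]
          exact k2
        · rw [Complex.neg_im]
          linarith [hw.2]
        · rw [Complex.neg_im]
          linarith
      · refine le_nu hR _ fun s hs => ?_
        rw [Finset.mem_filter, Finset.mem_filter] at hs
        exact ⟨(hA s hs.1.1).1, not_lt.1 hs.2, not_lt.1 hs.1.2⟩
    have h4 := hcnt2 h t h0.le (by linarith)
    have h5 : (nu (sh X h u) (Ex X h u T) : ℝ) ≤ 4 * (C2 * t ^ (1 - c * h) * Real.log t) + 2 * K1 := by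
      have h6 : (nu (sh X h u) (Ex X h u T) : ℝ) ≤ 2 * (nu X (S X h t) + nu X (S X h t) + K1) := by
        rw [hK1]
        exact_mod_cast h1'.trans (Nat.mul_le_mul_left 2 h3)
      linarith
    refine h5.trans ?_
    -- compare with `T`
    have hexp0 : 0 < 1 - c * h := by nlinarith [abs_le.1 (le_refl |c|)]
    have h6 : t ^ (1 - c * h) ≤ 2 ^ (1 + |c|) * T ^ (1 - c * h) := by
      calc t ^ (1 - c * h) ≤ (2 * T) ^ (1 - c * h) := Real.rpow_le_rpow ht0.le ht2 hexp0.le
        _ = 2 ^ (1 - c * h) * T ^ (1 - c * h) := Real.mul_rpow (by norm_num) hT0.le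
        _ ≤ 2 ^ (1 + |c|) * T ^ (1 - c * h) := by
          refine mul_le_mul_of_nonneg_right ?_ hTp.le
          refine Real.rpow_le_rpow_of_exponent_le (by norm_num) ?_
          have h7 : -(c * h) ≤ |c| := by
            have h8 : |c * h| ≤ |c| * 1 := by
              rw [abs_mul]
              refine mul_le_mul_of_nonneg_left ?_ (abs_nonneg _)
              rw [abs_of_pos h0]
              linarith
            have := neg_abs_le (c * h)
            linarith
          linarith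
    have h7 : Real.log t ≤ 2 * Real.log T := by
      have h8 : Real.log t ≤ Real.log (2 * T) := Real.log_le_log ht0 ht2
      rw [Real.log_mul (by norm_num) hT0.ne'] at h8
      linarith
    have h8 : 1 ≤ T ^ (1 - c * h) := Real.one_le_rpow hT1 hexp0.le
    have h9 : K1 ≤ K1 / Real.log 2 * T ^ (1 - c * h) * Real.log T := by
      have k1 : K1 = K1 / Real.log 2 * 1 * Real.log 2 := by field_simp
      calc K1 = K1 / Real.log 2 * 1 * Real.log 2 := k1
        _ ≤ K1 / Real.log 2 * T ^ (1 - c * h) * Real.log T := by gcongr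
    have hlt0 : 0 ≤ Real.log t := Real.log_nonneg (by linarith)
    have h10 : 4 * (C2 * t ^ (1 - c * h) * Real.log t) ≤ 8 * 2 ^ (1 + |c|) * C2 * T ^ (1 - c * h) * Real.log T := by
      calc 4 * (C2 * t ^ (1 - c * h) * Real.log t) ≤
          4 * (C2 * (2 ^ (1 + |c|) * T ^ (1 - c * h)) * (2 * Real.log T)) := by gcongr
        _ = _ := by ring
    calc 4 * (C2 * t ^ (1 - c * h) * Real.log t) + 2 * K1 ≤
        8 * 2 ^ (1 + |c|) * C2 * T ^ (1 - c * h) * Real.log T + 2 * (K1 / Real.log 2 * T ^ (1 - c * h) * Real.log T) :=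
          add_le_add h10 (mul_le_mul_of_nonneg_left h9 (by norm_num))
      _ = (8 * 2 ^ (1 + |c|) * C2 + 2 * (K1 / Real.log 2)) * (T ^ (1 - c * h) * Real.log T) := by ring
      _ ≤ max K0 (8 * 2 ^ (1 + |c|) * C2 + 2 * (K1 / Real.log 2) + 1) * (T ^ (1 - c * h) * Real.log T) := by
          refine mul_le_mul_of_nonneg_right ?_ (by positivity)
          refine le_trans ?_ (le_max_right _ _)
          linarith
      _ = _ := by ring

end

end Pool.Agent.N76.SH
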