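import Pool.Agent.N76.SH.Crit

set_option autoImplicit false

/-!
# Local structure of the zeros on the line
-/

namespace Pool.Agent.N76.SH

open Filter Complex Topology Set
open Pool.Agent.R838.TW (Sy)
open scoped ComplexConjugate

noncomputable section

variable {X : ℂ → ℂ} {D h : ℝ} {u : ℂ}

/-- a real function with non-vanishing derivative off `y0` takes the values `±ε` at most once on each side of `y0` -/
lemma side {η η' : ℝ → ℝ} {y0 ρ ε : ℝ} (h0 : η y0 = 0)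
    (hd : ∀ y ∈ Ioo (y0 - ρ) (y0 + ρ), HasDerivAt η (η' y) y)
    (hne : ∀ y ∈ Ioo (y0 - ρ) (y0 + ρ), y ≠ y0 → η' y ≠ 0) {y1 y2 : ℝ}
    (h1 : y1 ∈ Ioo (y0 - ρ) (y0 + ρ)) (h2 : y2 ∈ Ioo (y0 - ρ) (y0 + ρ))
    (e1 : |η y1| = ε) (e2 : |η y2| = ε) (hs : (y0 < y1 ∧ y0 < y2) ∨ (y1 < y0 ∧ y2 < y0)) : y1 = y2 := by
  have rolle : ∀ a b : ℝ, a < b → a ∈ Ioo (y0 - ρ) (y0 + ρ) → b ∈ Ioo (y0 - ρ) (y0 + ρ) → (y0 ≤ a ∨ b ≤ y0) →
      η a ≠ η b := by
    intro a b hab ha hb hside heq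
    obtain ⟨c, hc, hc0⟩ := exists_hasDerivAt_eq_zero hab
      (fun x hx => (hd x ⟨ha.1.trans_le hx.1, hx.2.trans_lt hb.2⟩).continuousAt.continuousWithinAt) heq
      (fun x hx => hd x ⟨ha.1.trans hx.1, hx.2.trans hb.2⟩)
    refine hne c ⟨ha.1.trans hc.1, hc.2.trans hb.2⟩ ?_ hc0
    rcases hside with h | h
    · exact (lt_of_le_of_lt h hc.1).ne'
    · exact (lt_of_lt_of_le hc.2 h).ne
  by_contra hne12
  wlog h12 : y1 < y2 generalizing y1 y2
  · exact this h2 h1 e2 e1 (by tauto) (Ne.symm hne12) (lt_of_le_of_ne (not_lt.1 h12) (Ne.symm hne12))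
  have hρ : 0 < ρ := by
    have := h1.1.trans h1.2
    linarith
  have hy0 : y0 ∈ Ioo (y0 - ρ) (y0 + ρ) := ⟨by linarith, by linarith⟩
  have hside : y0 ≤ y1 ∨ y2 ≤ y0 := by
    rcases hs with h | h
    · exact Or.inl h.1.le
    · exact Or.inr h.2.le
  rcases abs_eq_abs.1 (e1.trans e2.symm) with h | h
  · exact rolle y1 y2 h12 h1 h2 hside h
  · have hmem : (0 : ℝ) ∈ uIcc (η y1) (η y2) := by
      rw [h, mem_uIcc]
      rcases le_total 0 (η y2) with h3 | h3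
      · left
        constructor <;> linarith
      · right
        constructor <;> linarith
    have hsub : uIcc y1 y2 ⊆ Ioo (y0 - ρ) (y0 + ρ) := by
      rw [uIcc_of_le h12.le]
      exact fun x hx => ⟨h1.1.trans_le hx.1, hx.2.trans_lt h2.2⟩
    obtain ⟨y3, hy3, h3⟩ := intermediate_value_uIcc
      (fun x hx => (hd x (hsub hx)).continuousAt.continuousWithinAt) hmem
    have hy3' := hsub hy3
    rw [uIcc_of_le h12.le] at hy3
    rcases hs with h4 | h4
    · exact rolle y0 y3 (lt_of_lt_of_le h4.1 hy3.1) hy0 hy3' (Or.inl le_rfl) (by rw [h0, h3])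
    · exact rolle y3 y0 (lt_of_le_of_lt hy3.2 h4.2) hy3' hy0 (Or.inr le_rfl) (by rw [h0, h3])

lemma not_prop (hD : ∀ b, X b = 0 → |b.re| ≤ D) (hz0 : ∃ b, X b = 0) (h0 : 0 < h) {k : ℂ} (hk0 : k ≠ 0)
    (hall : ∀ w, X (w - h) = k * X (w + h)) : False := by
  obtain ⟨b, hb⟩ := hz0
  have hn : ∀ n : ℕ, X (b + n * (2 * h)) = 0 := by
    intro n
    induction n with
    | zero => simpa using hb
    | succ n ih =>
      have h1 := hall (b + n * (2 * h) + h)
      rw [add_sub_cancel_right, ih] at h1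
      have h2 := (mul_eq_zero.1 h1.symm).resolve_left hk0
      rw [← h2]
      congr 1
      push_cast
      ring
  obtain ⟨n, hn'⟩ := exists_nat_gt ((D - b.re) / (2 * h))
  have h3 := hD _ (hn n)
  have h4 : (b + (n : ℂ) * (2 * (h : ℂ))).re = b.re + n * (2 * h) := by simp
  rw [h4] at h3
  have h5 := (abs_le.1 h3).2
  rw [div_lt_iff₀ (by linarith)] at hn'
  linarith

lemma fac {P : ℂ → ℂ} (hP : Differentiable ℂ P) (hne : ∃ w, P w ≠ 0) (a : ℂ) : ∃ g : ℂ → ℂ, AnalyticAt ℂ g a ∧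
    g a ≠ 0 ∧ ∀ᶠ z in 𝓝 a, P z = (z - a) ^ analyticOrderNatAt P a * g z := by
  obtain ⟨g, h1, h2, h3⟩ := (hP.analyticAt a).analyticOrderAt_ne_top.1 (order_top hP hne a)
  exact ⟨g, h1, h2, h3⟩

/-- local structure at a point of the line -/
theorem struct (hX : Sy X) (hD : ∀ b, X b = 0 → |b.re| ≤ D) (hz0 : ∃ b, X b = 0) (h0 : 0 < h) {a : ℂ}
    (ha : a.re = 0) : ∃ g q : ℂ → ℂ, AnalyticAt ℂ g a ∧ g a ≠ 0 ∧ AnalyticAt ℂ q a ∧ q a ≠ 0 ∧
    (∀ᶠ z in 𝓝 a, X (z + h) = (z - a) ^ analyticOrderNatAt X (a + h) * g z ∧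
      X (z - h) = (z - a) ^ analyticOrderNatAt X (a + h) * (g z * q z)) ∧
    (∀ᶠ z in 𝓝[≠] a, z.re = 0 → ‖q z‖ = 1) ∧ ∀ᶠ z in 𝓝[≠] a, deriv q z ≠ 0 := by
  have hPd : Differentiable ℂ fun z : ℂ => X (z + h) := hX.diff.comp (by fun_prop)
  have hQd : Differentiable ℂ fun z : ℂ => X (z - h) := hX.diff.comp (by fun_prop)
  obtain ⟨w, hw⟩ := hX.ne
  obtain ⟨g, hg, hg0, hgP⟩ := fac hPd ⟨w - h, by simpa using hw⟩ a
  obtain ⟨g2, hg2, hg20, hgQ⟩ := fac hQd ⟨w + h, by simpa using hw⟩ a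
  have e1 : analyticOrderNatAt (fun z : ℂ => X (z + h)) a = analyticOrderNatAt X (a + h) := ord_shift _ _
  have e2 : analyticOrderNatAt (fun z : ℂ => X (z - h)) a = analyticOrderNatAt X (a + h) := by
    have h1 : (fun z : ℂ => X (z - h)) = fun z : ℂ => X (z + (-(h : ℂ))) := by
      funext z
      rw [sub_eq_add_neg]
    rw [h1, ord_shift]
    have h2 : a + -(h : ℂ) = -(conj (a + h)) := by
      apply Complex.ext
      · simp [ha]
      · simp
    rw [h2]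
    exact ord_symm hX.diff one_ne_zero (fun z => by rw [one_mul]; exact hX.symm z) _
  rw [e1] at hgP
  rw [e2] at hgQ
  obtain ⟨c, hc⟩ : ∃ c : ℕ, c = analyticOrderNatAt X (a + h) := ⟨_, rfl⟩
  rw [← hc] at hgP hgQ ⊢
  obtain ⟨q, hq⟩ : ∃ q : ℂ → ℂ, q = fun z => g2 z / g z := ⟨_, rfl⟩
  have hqa : AnalyticAt ℂ q a := by
    rw [hq]
    exact hg2.div hg hg0
  have hq0 : q a ≠ 0 := by
    rw [hq]
    exact div_ne_zero hg20 hg0
  have hgne : ∀ᶠ z in 𝓝 a, g z ≠ 0 := hg.continuousAt.eventually_ne hg0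
  have hfac : ∀ᶠ z in 𝓝 a, X (z + h) = (z - a) ^ c * g z ∧ X (z - h) = (z - a) ^ c * (g z * q z) := by
    filter_upwards [hgP, hgQ, hgne] with z h1 h2 h3
    refine ⟨h1, ?_⟩
    rw [h2, hq]
    simp only
    rw [mul_div_cancel₀ _ h3]
  refine ⟨g, q, hg, hg0, hqa, hq0, hfac, ?_, ?_⟩
  · have h1 : ∀ᶠ z in 𝓝[≠] a, X (z + h) = (z - a) ^ c * g z ∧ X (z - h) = (z - a) ^ c * (g z * q z) :=
      eventually_nhdsWithin_of_eventually_nhds hfac
    have h2 : ∀ᶠ z in 𝓝[≠] a, g z ≠ 0 := eventually_nhdsWithin_of_eventually_nhds hgne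
    filter_upwards [h1, h2, self_mem_nhdsWithin] with z hz1 hz2 hza hre
    have h3 : z - (h : ℂ) = -(conj (z + h)) := by
      apply Complex.ext
      · simp [hre]
      · simp
    have h4 : ‖X (z - h)‖ = ‖X (z + h)‖ := by
      rw [h3, hX.symm, Complex.norm_conj]
    rw [hz1.1, hz1.2, norm_mul, norm_mul, norm_mul] at h4
    have h5 : ‖(z - a) ^ c‖ ≠ 0 := by
      rw [norm_ne_zero_iff]
      exact pow_ne_zero _ (sub_ne_zero.2 hza)
    have h6 : ‖g z‖ ≠ 0 := norm_ne_zero_iff.2 hz2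
    have h7 := mul_left_cancel₀ h5 h4
    have h8 : ‖g z‖ * ‖q z‖ = ‖g z‖ * 1 := by rw [h7, mul_one]
    exact mul_left_cancel₀ h6 h8
  · rcases hqa.deriv.eventually_eq_zero_or_eventually_ne_zero with h1 | h1
    · exfalso
      -- `q` is locally constant
      have h2 := h1.and (hfac.and hqa.eventually_analyticAt)
      rw [Metric.eventually_nhds_iff_ball] at h2
      obtain ⟨δ, hδ, h2⟩ := h2
      have h3 : ∀ z ∈ Metric.ball a δ, q z = q a := by
        intro z hz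
        refine Metric.isOpen_ball.is_const_of_deriv_eq_zero (convex_ball a δ).isPreconnected
          (fun x hx => (h2 x hx).2.2.differentiableAt.differentiableWithinAt) (fun x hx => (h2 x hx).1) hz
          (Metric.mem_ball_self hδ)
      have h4 : ∀ᶠ z in 𝓝 a, X (z - h) = q a * X (z + h) := by
        filter_upwards [Metric.ball_mem_nhds a hδ] with z hz
        obtain ⟨-, ⟨h5, h6⟩, -⟩ := h2 z hz
        rw [h5, h6, h3 z hz]
        ring
      have a1 : AnalyticOnNhd ℂ (fun z : ℂ => X (z - h)) univ := fun z _ => hQd.analyticAt z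
      have a2 : AnalyticOnNhd ℂ (fun z : ℂ => q a * X (z + h)) univ := fun z _ => (hPd.const_mul _).analyticAt z
      exact not_prop hD hz0 h0 hq0 fun z => congrFun (a1.eq_of_eventuallyEq a2 h4) z
    · exact h1

end

end Pool.Agent.N76.SH
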