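import Pool.Agent.N76.SH.Loc

set_option autoImplicit false

/-!
# Rotating the coefficient moves multiple zeros off the line
-/

namespace Pool.Agent.N76.SH

open Filter Complex Topology Set
open Pool.Agent.R838.TW (Sy)
open scoped ComplexConjugate

noncomputable section

variable {X : ℂ → ℂ} {D h : ℝ} {u : ℂ}

/-- order at the point itself -/
lemma ord_at (hX : Differentiable ℂ X) {a u' : ℂ} {c : ℕ} {g q : ℂ → ℂ} (hg : AnalyticAt ℂ g a) (hg0 : g a ≠ 0)
    (hq : AnalyticAt ℂ q a) (hne : 1 + u' * q a ≠ 0)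
    (hfac : ∀ᶠ z in 𝓝 a, X (z + h) = (z - a) ^ c * g z ∧ X (z - h) = (z - a) ^ c * (g z * q z)) :
    analyticOrderNatAt (sh X h u') a = c := by
  have h1 : analyticOrderAt (sh X h u') a = (c : ℕ∞) := by
    rw [((sh_diff hX h u').analyticAt a).analyticOrderAt_eq_natCast]
    refine ⟨fun z => g z * (1 + u' * q z), hg.mul (analyticAt_const.add (analyticAt_const.mul hq)),
      mul_ne_zero hg0 hne, ?_⟩
    filter_upwards [hfac] with z hz
    unfold sh
    rw [hz.1, hz.2, smul_eq_mul]
    ring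
  unfold analyticOrderNatAt
  rw [h1]
  rfl

/-- simple zeros -/
lemma ord_one {a u' z : ℂ} {c : ℕ} {g q : ℂ → ℂ} (hu' : u' ≠ 0) (hza : z ≠ a)
    (hg : AnalyticAt ℂ g z) (hg0 : g z ≠ 0)
    (hq : AnalyticAt ℂ q z) (h1 : 1 + u' * q z = 0) (hd : deriv q z ≠ 0)
    (hfac : ∀ᶠ w in 𝓝 z, X (w + h) = (w - a) ^ c * g w ∧ X (w - h) = (w - a) ^ c * (g w * q w)) :
    analyticOrderNatAt (sh X h u') z = 1 := by
  have e1 : sh X h u' =ᶠ[𝓝 z] fun w => ((w - a) ^ c * g w) * (1 + u' * q w) := by
    filter_upwards [hfac] with w hw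
    unfold sh
    rw [hw.1, hw.2]
    ring
  have a1 : AnalyticAt ℂ (fun w => (w - a) ^ c * g w) z := ((analyticAt_id.sub analyticAt_const).pow c).mul hg
  have a2 : AnalyticAt ℂ (fun w => 1 + u' * q w) z := analyticAt_const.add (analyticAt_const.mul hq)
  have o1 : analyticOrderAt (fun w => (w - a) ^ c * g w) z = 0 := by
    rw [a1.analyticOrderAt_eq_zero]
    exact mul_ne_zero (pow_ne_zero _ (sub_ne_zero.2 hza)) hg0
  have o2 : analyticOrderAt (fun w => 1 + u' * q w) z = 1 := by
    refine a2.analyticOrderAt_eq_one_of_zero_deriv_ne_zero h1 ?_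
    have h2 : deriv (fun w => 1 + u' * q w) z = u' * deriv q z :=
      ((hq.differentiableAt.hasDerivAt.const_mul u').const_add 1).deriv
    rw [h2]
    exact mul_ne_zero hu' hd
  have o3 : analyticOrderAt (sh X h u') z = 1 := by
    rw [analyticOrderAt_congr e1]
    have h3 : analyticOrderAt (fun w => ((w - a) ^ c * g w) * (1 + u' * q w)) z =
        analyticOrderAt (fun w => (w - a) ^ c * g w) z + analyticOrderAt (fun w => 1 + u' * q w) z :=
      analyticOrderAt_mul a1 a2
    rw [h3, o1, o2, zero_add]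
  unfold analyticOrderNatAt
  rw [o3]
  rfl

/-- the phase on the line -/
lemma phase {q : ℂ → ℂ} {y0 ρ : ℝ} {v : ℂ} (hv : ‖v‖ = 1)
    (hq : ∀ y ∈ Ioo (y0 - ρ) (y0 + ρ), AnalyticAt ℂ q (y * I))
    (hq1 : ∀ y ∈ Ioo (y0 - ρ) (y0 + ρ), ‖q (y * I)‖ = 1)
    (hs : ∀ y ∈ Ioo (y0 - ρ) (y0 + ρ), v * q (y * I) ∈ slitPlane)
    (hd : ∀ y ∈ Ioo (y0 - ρ) (y0 + ρ), y ≠ y0 → deriv q (y * I) ≠ 0) :
    (∀ y ∈ Ioo (y0 - ρ) (y0 + ρ), HasDerivAt (fun y : ℝ => (Complex.log (v * q (y * I))).im)
      (deriv q (y * I) * I / q (y * I)).im y) ∧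
    ∀ y ∈ Ioo (y0 - ρ) (y0 + ρ), y ≠ y0 → (deriv q (y * I) * I / q (y * I)).im ≠ 0 := by
  have hv0 : v ≠ 0 := by
    intro h1
    rw [h1, norm_zero] at hv
    exact zero_ne_one hv
  have hq0 : ∀ y ∈ Ioo (y0 - ρ) (y0 + ρ), q (y * I) ≠ 0 := by
    intro y hy h1
    have := hq1 y hy
    rw [h1, norm_zero] at this
    exact zero_ne_one this
  have hlog : ∀ y ∈ Ioo (y0 - ρ) (y0 + ρ), HasDerivAt (fun y : ℝ => Complex.log (v * q (y * I)))
      (deriv q (y * I) * I / q (y * I)) y := by
    intro y hy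
    have h1 : HasDerivAt (fun w : ℂ => w * I) I (y : ℂ) := by
      simpa using (hasDerivAt_id (y : ℂ)).mul_const I
    have h2 : HasDerivAt (fun w : ℂ => v * q (w * I)) (v * (deriv q (y * I) * I)) (y : ℂ) :=
      (HasDerivAt.comp (y : ℂ) (hq y hy).differentiableAt.hasDerivAt h1).const_mul v
    have h3 := h2.comp_ofReal.clog_real (hs y hy)
    refine h3.congr_deriv ?_
    have := hq0 y hy
    field_simp
  have hre : ∀ y ∈ Ioo (y0 - ρ) (y0 + ρ), (deriv q (y * I) * I / q (y * I)).re = 0 := by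
    intro y hy
    have h1 : HasDerivAt (fun y : ℝ => (Complex.log (v * q (y * I))).re) (deriv q (y * I) * I / q (y * I)).re y :=
      Complex.reCLM.hasFDerivAt.comp_hasDerivAt y (hlog y hy)
    have h2 : (fun y : ℝ => (Complex.log (v * q (y * I))).re) =ᶠ[𝓝 y] fun _ => 0 := by
      filter_upwards [isOpen_Ioo.mem_nhds hy] with x hx
      rw [Complex.log_re, norm_mul, hv, hq1 x hx, mul_one, Real.log_one]
    exact h1.unique ((hasDerivAt_const y (0 : ℝ)).congr_of_eventuallyEq h2)
  refine ⟨fun y hy => Complex.imCLM.hasFDerivAt.comp_hasDerivAt y (hlog y hy), fun y hy hyy h1 => ?_⟩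
  have h2 : deriv q (y * I) * I / q (y * I) = 0 := Complex.ext (hre y hy) h1
  rw [div_eq_zero_iff] at h2
  rcases h2 with h2 | h2
  · exact (mul_ne_zero (hd y hy hyy) Complex.I_ne_zero) h2
  · exact hq0 y hy h2

/-- **Local lemma.** -/
theorem loc (hX : Sy X) (hD : ∀ b, X b = 0 → |b.re| ≤ D) (hz0 : ∃ b, X b = 0) (h0 : 0 < h) (hu : ‖u‖ = 1) {a : ℂ}
    (ha : a.re = 0) : ∃ δ : ℝ, 0 < δ ∧ ∀ ρ : ℝ, 0 < ρ → ρ < δ → ∀ᶠ e : ℝ in 𝓝[>] (0 : ℝ), ∀ B1 B2 : Finset ℂ,
      (∀ z ∈ B1, z ∈ Metric.ball a ρ ∧ sh X h (u * Complex.exp (e * I)) z = 0) →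
      (∀ z ∈ B2, z ∈ Metric.ball a ρ ∧ sh X h (u * Complex.exp (-e * I)) z = 0) →
      ∑ b ∈ B1, analyticOrderNatAt (sh X h (u * Complex.exp (e * I))) b +
        ∑ b ∈ B2, analyticOrderNatAt (sh X h (u * Complex.exp (-e * I))) b ≤
      ∑ b ∈ B1.filter (fun b => b.re ≠ 0), analyticOrderNatAt (sh X h (u * Complex.exp (e * I))) b +
        ∑ b ∈ B2.filter (fun b => b.re ≠ 0), analyticOrderNatAt (sh X h (u * Complex.exp (-e * I))) b +
        2 * analyticOrderNatAt X (a + h) + 2 := by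
  classical
  obtain ⟨g, q, hg, hg0, hq, hq0, hfac, hq1, hqd⟩ := struct hX hD hz0 h0 ha
  obtain ⟨c, hc⟩ : ∃ c : ℕ, c = analyticOrderNatAt X (a + h) := ⟨_, rfl⟩
  rw [← hc] at hfac ⊢
  have hu0 : u ≠ 0 := by
    intro h1
    rw [h1, norm_zero] at hu
    exact zero_ne_one hu
  have hgne : ∀ᶠ z in 𝓝 a, g z ≠ 0 := hg.continuousAt.eventually_ne hg0
  have htend : ∀ s : ℝ, Tendsto (fun e : ℝ => u * Complex.exp (s * e * I)) (𝓝 0) (𝓝 u) := by
    intro s
    have hc : Continuous fun e : ℝ => u * Complex.exp (s * e * I) := by fun_prop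
    have := hc.tendsto 0
    simpa using this
  have ht1 : Tendsto (fun e : ℝ => u * Complex.exp (e * I)) (𝓝 0) (𝓝 u) := by
    have := htend 1
    simpa using this
  have ht2 : Tendsto (fun e : ℝ => u * Complex.exp (-e * I)) (𝓝 0) (𝓝 u) := by
    have := htend (-1)
    simpa using this
  by_cases hcase : 1 + u * q a = 0
  swap
  · -- no zeros near `a` except `a`
    have h1 : ∀ᶠ p : ℂ × ℂ in 𝓝 (u, a), 1 + p.1 * q p.2 ≠ 0 := by
      have h2 : ContinuousAt (fun p : ℂ × ℂ => 1 + p.1 * q p.2) (u, a) := by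
        have : ContinuousAt (fun p : ℂ × ℂ => q p.2) (u, a) :=
          ContinuousAt.comp (f := fun p : ℂ × ℂ => p.2) (g := q) (x := (u, a)) hq.continuousAt continuousAt_snd
        exact continuousAt_const.add (continuousAt_fst.mul this)
      exact h2.eventually_ne hcase
    rw [nhds_prod_eq, eventually_prod_iff] at h1
    obtain ⟨pa, hpa, pb, hpb, h1⟩ := h1
    have h2 := hpb.and (hfac.and hgne)
    rw [Metric.eventually_nhds_iff_ball] at h2
    obtain ⟨δ, hδ, h2⟩ := h2
    refine ⟨δ, hδ, fun ρ hρ hρδ => ?_⟩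
    have e1 := eventually_nhdsWithin_of_eventually_nhds (s := Ioi (0 : ℝ)) (ht1.eventually hpa)
    have e2 := eventually_nhdsWithin_of_eventually_nhds (s := Ioi (0 : ℝ)) (ht2.eventually hpa)
    filter_upwards [e1, e2] with e he1 he2 B1 B2 hB1 hB2
    have key : ∀ (u' : ℂ), pa u' → ∀ B : Finset ℂ, (∀ z ∈ B, z ∈ Metric.ball a ρ ∧ sh X h u' z = 0) →
        ∑ b ∈ B, analyticOrderNatAt (sh X h u') b ≤ c := by
      intro u' hu' B hB
      have h3 : ∀ z ∈ B, z = a := by
        intro z hz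
        obtain ⟨k1, k2⟩ := hB z hz
        obtain ⟨k3, ⟨k4, k5⟩, k6⟩ := h2 z (Metric.ball_subset_ball hρδ.le k1)
        by_contra hza
        unfold sh at k2
        rw [k4, k5] at k2
        have k7 : (z - a) ^ c * (g z * (1 + u' * q z)) = 0 := by linear_combination k2
        exact (mul_ne_zero (pow_ne_zero _ (sub_ne_zero.2 hza)) (mul_ne_zero k6 (h1 hu' k3))) k7
      have h4 : B ⊆ {a} := fun z hz => Finset.mem_singleton.2 (h3 z hz)
      refine (Finset.sum_le_sum_of_subset h4).trans (le_of_eq ?_)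
      rw [Finset.sum_singleton]
      exact ord_at hX.diff hg hg0 hq (h1 hu' hpb.self_of_nhds) hfac
    have h3 := key _ he1 B1 hB1
    have h4 := key _ he2 B2 hB2
    omega
  · -- the phase
    have hqa1 : ‖q a‖ = 1 := by
      have h1 : u * q a = -1 := by linear_combination hcase
      have h2 : ‖u * q a‖ = 1 := by rw [h1]; simp
      rwa [norm_mul, hu, one_mul] at h2
    have hsl : ∀ᶠ z in 𝓝 a, (-u) * q z ∈ slitPlane := by
      have h1 : ContinuousAt (fun z => (-u) * q z) a := continuousAt_const.mul hq.continuousAt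
      refine h1.eventually (isOpen_slitPlane.mem_nhds ?_)
      have h2 : (-u) * q a = 1 := by linear_combination -hcase
      show (-u) * q a ∈ slitPlane
      rw [h2]
      exact one_mem_slitPlane
    have hall : ∀ᶠ z in 𝓝 a, (∀ᶠ w in 𝓝 z, X (w + h) = (w - a) ^ c * g w ∧ X (w - h) = (w - a) ^ c * (g w * q w)) ∧
        AnalyticAt ℂ g z ∧ g z ≠ 0 ∧ AnalyticAt ℂ q z ∧ (-u) * q z ∈ slitPlane ∧
        (z ∈ ({a}ᶜ : Set ℂ) → z.re = 0 → ‖q z‖ = 1) ∧ (z ∈ ({a}ᶜ : Set ℂ) → deriv q z ≠ 0) := by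
      filter_upwards [hfac.eventually_nhds, hg.eventually_analyticAt, hgne, hq.eventually_analyticAt, hsl,
        eventually_nhdsWithin_iff.1 hq1, eventually_nhdsWithin_iff.1 hqd] with z k1 k2 k3 k4 k5 k6 k7
      exact ⟨k1, k2, k3, k4, k5, k6, k7⟩
    rw [Metric.eventually_nhds_iff_ball] at hall
    obtain ⟨δ, hδ, hall⟩ := hall
    refine ⟨δ, hδ, fun ρ hρ hρδ => ?_⟩
    have hay : ((a.im : ℝ) : ℂ) * I = a := by
      apply Complex.ext
      · simp [ha]
      · simp
    have hball : ∀ y ∈ Ioo (a.im - ρ) (a.im + ρ), ((y : ℝ) : ℂ) * I ∈ Metric.ball a δ := by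
      intro y hy
      rw [Metric.mem_ball, ← hay, Complex.dist_eq, ← sub_mul, norm_mul, Complex.norm_I, mul_one, ← Complex.ofReal_sub,
        Complex.norm_real, Real.norm_eq_abs, abs_lt]
      constructor <;> linarith [hy.1, hy.2]
    have hya : ∀ y : ℝ, y ≠ a.im → ((y : ℝ) : ℂ) * I ≠ a := by
      intro y hy h1
      apply hy
      rw [← h1]
      simp
    obtain ⟨hη1, hη2⟩ := phase (q := q) (y0 := a.im) (ρ := ρ) (v := -u) (by rw [norm_neg]; exact hu)
      (fun y hy => (hall _ (hball y hy)).2.2.2.1)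
      (fun y hy => by
        by_cases hy0 : y = a.im
        · rw [hy0, hay]
          exact hqa1
        · exact (hall _ (hball y hy)).2.2.2.2.2.1 (hya y hy0) (by simp))
      (fun y hy => (hall _ (hball y hy)).2.2.2.2.1)
      (fun y hy hy0 => (hall _ (hball y hy)).2.2.2.2.2.2 (hya y hy0))
    have hη0 : (Complex.log (-u * q ((a.im : ℝ) * I))).im = 0 := by
      rw [hay]
      have h2 : (-u) * q a = 1 := by linear_combination -hcase
      rw [h2, Complex.log_one]
      rfl
    have hpi : ∀ᶠ e in 𝓝[>] (0 : ℝ), e < Real.pi / 2 :=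
      eventually_nhdsWithin_of_eventually_nhds (gt_mem_nhds (by positivity))
    filter_upwards [hpi, self_mem_nhdsWithin] with e hepi he0' B1 B2 hB1 hB2
    have he0 : (0 : ℝ) < e := he0'
    -- generic sign
    have key : ∀ (s : ℝ), |s| = e → ∀ B : Finset ℂ,
        (∀ z ∈ B, z ∈ Metric.ball a ρ ∧ sh X h (u * Complex.exp (s * I)) z = 0) →
        (∑ b ∈ B, analyticOrderNatAt (sh X h (u * Complex.exp (s * I))) b ≤
          ∑ b ∈ B.filter (fun b => b.re ≠ 0), analyticOrderNatAt (sh X h (u * Complex.exp (s * I))) b + c +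
            (B.filter (fun b => b.re = 0 ∧ b ≠ a)).card) ∧
        ∀ z ∈ B.filter (fun b => b.re = 0 ∧ b ≠ a), z.im ∈ Ioo (a.im - ρ) (a.im + ρ) ∧ z.im ≠ a.im ∧
          (Complex.log (-u * q ((z.im : ℝ) * I))).im = -s := by
      intro s hs B hB
      obtain ⟨u', hu'⟩ : ∃ u' : ℂ, u' = u * Complex.exp (s * I) := ⟨_, rfl⟩
      rw [← hu'] at hB ⊢
      have hsl : |s| < Real.pi := by
        rw [hs]
        linarith [Real.pi_pos]
      have hsl' := abs_lt.1 hsl
      have hu'0 : u' ≠ 0 := by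
        rw [hu']
        exact mul_ne_zero hu0 (Complex.exp_ne_zero _)
      have hpt : ∀ z ∈ B.filter (fun b => b.re = 0 ∧ b ≠ a), ((z.im : ℝ) : ℂ) * I = z ∧
          z ∈ Metric.ball a δ ∧ 1 + u' * q z = 0 := by
        intro z hz
        rw [Finset.mem_filter] at hz
        obtain ⟨hzB, hre, hza⟩ := hz
        obtain ⟨k1, k2⟩ := hB z hzB
        have k1' := Metric.ball_subset_ball hρδ.le k1
        obtain ⟨m1, m2, m3, -⟩ := hall z k1'
        obtain ⟨m4, m5⟩ := m1.self_of_nhds
        refine ⟨?_, k1', ?_⟩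
        · apply Complex.ext
          · simp [hre]
          · simp
        · unfold sh at k2
          rw [m4, m5] at k2
          have k7 : ((z - a) ^ c * g z) * (1 + u' * q z) = 0 := by linear_combination k2
          exact (mul_eq_zero.1 k7).resolve_left (mul_ne_zero (pow_ne_zero _ (sub_ne_zero.2 hza)) m3)
      constructor
      · have hsplit : ∑ b ∈ B, analyticOrderNatAt (sh X h u') b =
            ∑ b ∈ B.filter (fun b => b.re ≠ 0), analyticOrderNatAt (sh X h u') b +
            (∑ b ∈ (B.filter (fun b => ¬ b.re ≠ 0)).filter (fun b => b = a), analyticOrderNatAt (sh X h u') b +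
            ∑ b ∈ (B.filter (fun b => ¬ b.re ≠ 0)).filter (fun b => ¬ b = a), analyticOrderNatAt (sh X h u') b) := by
          rw [Finset.sum_filter_add_sum_filter_not, Finset.sum_filter_add_sum_filter_not]
        rw [hsplit, add_assoc]
        refine add_le_add le_rfl (add_le_add ?_ ?_)
        · have h4 : (B.filter (fun b => ¬ b.re ≠ 0)).filter (fun b => b = a) ⊆ {a} := fun z hz =>
            Finset.mem_singleton.2 (Finset.mem_filter.1 hz).2
          refine (Finset.sum_le_sum_of_subset h4).trans (le_of_eq ?_)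
          rw [Finset.sum_singleton]
          refine ord_at hX.diff hg hg0 hq ?_ hfac
          intro h5
          have h6 : u * q a = -1 := by linear_combination hcase
          rw [hu'] at h5
          have h7 : Complex.exp (s * I) = 1 := by linear_combination (-1 : ℂ) * h5 + Complex.exp (s * I) * h6
          have h8 : Complex.log (Complex.exp (s * I)) = s * I :=
            Complex.log_exp (by simp; linarith) (by simp; linarith)
          rw [h7, Complex.log_one] at h8
          have h9 := congrArg Complex.im h8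
          simp at h9
          rw [← h9, abs_zero] at hs
          linarith
        · have h4 : (B.filter (fun b => ¬ b.re ≠ 0)).filter (fun b => ¬ b = a) =
              B.filter (fun b => b.re = 0 ∧ b ≠ a) := by
            ext z
            simp only [Finset.mem_filter, ne_eq, not_not]
            tauto
          rw [h4, Finset.card_eq_sum_ones]
          refine Finset.sum_le_sum fun z hz => ?_
          obtain ⟨k0, k1, k2⟩ := hpt z hz
          rw [Finset.mem_filter] at hz
          obtain ⟨m1, m2, m3, m4, m5, m6, m7⟩ := hall z k1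
          exact (ord_one hu'0 hz.2.2 m2 m3 m4 k2 (m7 hz.2.2) m1).le
      · intro z hz
        obtain ⟨k0, k1, k2⟩ := hpt z hz
        rw [Finset.mem_filter] at hz
        have k3 := (hB z hz.1).1
        have k4 : |z.im - a.im| < ρ := by
          rw [Metric.mem_ball, Complex.dist_eq] at k3
          have := Complex.abs_im_le_norm (z - a)
          rw [Complex.sub_im] at this
          linarith
        have k5 := abs_lt.1 k4
        refine ⟨⟨by linarith [k5.1], by linarith [k5.2]⟩, fun h1 => hz.2.2 ?_, ?_⟩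
        · rw [← k0, ← hay, h1]
        · rw [k0]
          have h6 : -u * q z = Complex.exp (-s * I) := by
            have h7 : Complex.exp (s * I) * Complex.exp (-s * I) = 1 := by
              rw [← Complex.exp_add]
              have : (s : ℂ) * I + -s * I = 0 := by ring
              rw [this, Complex.exp_zero]
            rw [hu'] at k2
            linear_combination (-(Complex.exp (-s * I))) * k2 * (-1) * (-1) + (u * q z) * h7 * (-1) * (-1)
          rw [h6, Complex.log_exp]
          · simp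
          · simp
            linarith
          · simp
            linarith
    obtain ⟨p1, p2⟩ := key e (abs_of_pos he0) B1 hB1
    obtain ⟨m1, m2⟩ := key (-e) (by rw [abs_neg]; exact abs_of_pos he0) B2 (fun z hz => by
      have := hB2 z hz
      push_cast
      exact this)
    rw [Complex.ofReal_neg] at m1
    -- at most two points on the line
    obtain ⟨F1, hF1⟩ : ∃ F1 : Finset ℂ, F1 = B1.filter (fun b => b.re = 0 ∧ b ≠ a) := ⟨_, rfl⟩
    obtain ⟨F2, hF2⟩ : ∃ F2 : Finset ℂ, F2 = B2.filter (fun b => b.re = 0 ∧ b ≠ a) := ⟨_, rfl⟩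
    rw [← hF1] at p1 p2
    rw [← hF2] at m1 m2
    have hdisj : Disjoint F1 F2 := by
      rw [Finset.disjoint_left]
      intro z hz1 hz2
      have k1 := (p2 z hz1).2.2
      have k2 := (m2 z hz2).2.2
      rw [k1] at k2
      linarith
    have hval : ∀ z ∈ F1 ∪ F2, z.re = 0 ∧ z.im ∈ Ioo (a.im - ρ) (a.im + ρ) ∧ z.im ≠ a.im ∧
        |(Complex.log (-u * q ((z.im : ℝ) * I))).im| = e := by
      intro z hz
      rcases Finset.mem_union.1 hz with hz | hz
      · obtain ⟨k1, k2, k3⟩ := p2 z hz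
        rw [hF1, Finset.mem_filter] at hz
        exact ⟨hz.2.1, k1, k2, by rw [k3, abs_neg, abs_of_pos he0]⟩
      · obtain ⟨k1, k2, k3⟩ := m2 z hz
        rw [hF2, Finset.mem_filter] at hz
        exact ⟨hz.2.1, k1, k2, by rw [k3, neg_neg, abs_of_pos he0]⟩
    have huniq : ∀ z1 ∈ F1 ∪ F2, ∀ z2 ∈ F1 ∪ F2,
        ((a.im < z1.im ∧ a.im < z2.im) ∨ (z1.im < a.im ∧ z2.im < a.im)) → z1 = z2 := by
      intro z1 hz1 z2 hz2 hs
      obtain ⟨r1, i1, -, v1⟩ := hval z1 hz1
      obtain ⟨r2, i2, -, v2⟩ := hval z2 hz2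
      have := side (η := fun y : ℝ => (Complex.log (-u * q (y * I))).im)
        (η' := fun y : ℝ => (deriv q (y * I) * I / q (y * I)).im) hη0 hη1 hη2 i1 i2 v1 v2 hs
      exact Complex.ext (by rw [r1, r2]) this
    have hcard : (F1 ∪ F2).card ≤ 2 := by
      rw [← Finset.card_filter_add_card_filter_not (s := F1 ∪ F2) (fun z => a.im < z.im)]
      refine (add_le_add (Finset.card_le_one.2 ?_) (Finset.card_le_one.2 ?_)).trans (by norm_num)
      · intro z1 hz1 z2 hz2
        rw [Finset.mem_filter] at hz1 hz2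
        exact huniq z1 hz1.1 z2 hz2.1 (Or.inl ⟨hz1.2, hz2.2⟩)
      · intro z1 hz1 z2 hz2
        rw [Finset.mem_filter] at hz1 hz2
        have n1 := (hval z1 hz1.1).2.2.1
        have n2 := (hval z2 hz2.1).2.2.1
        exact huniq z1 hz1.1 z2 hz2.1 (Or.inr ⟨lt_of_le_of_ne (not_lt.1 hz1.2) n1, lt_of_le_of_ne (not_lt.1 hz2.2) n2⟩)
    rw [Finset.card_union_of_disjoint hdisj] at hcard
    omega

end

end Pool.Agent.N76.SH
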