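import Pool.Agent.N76.SH.Den
import Pool.Agent.N76.SH.Loc2

set_option autoImplicit false

/-!
# Zeros with multiplicity and distinct zeros on the line
-/

namespace Pool.Agent.N76.SH

open Filter Complex Topology Set
open Pool.Agent.R838.TW (Sy)
open Pool.Agent.R838.ST (nb)
open Pool.Agent.Y22.RX (S)
open scoped ComplexConjugate

noncomputable section

variable {X : ℂ → ℂ} {D h : ℝ} {u : ℂ}

lemma norm_rot (hu : ‖u‖ = 1) (e : ℝ) : ‖u * Complex.exp (e * I)‖ = 1 := by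
  rw [norm_mul, hu, Complex.norm_exp_ofReal_mul_I, one_mul]

/-- the perturbation of the coefficient -/
theorem close2 (hX : Continuous X) (h : ℝ) (u : ℂ) {K : Set ℂ} (hK : IsCompact K) {ε : ℝ} (hε : 0 < ε) :
    ∀ᶠ e : ℝ in 𝓝 0, ∀ z ∈ K, ‖sh X h u z - sh X h (u * Complex.exp (e * I)) z‖ < ε := by
  refine hK.eventually_forall_of_forall_eventually fun z _ => ?_
  have hc : Continuous fun q : ℝ × ℂ => ‖sh X h u q.2 - sh X h (u * Complex.exp (q.1 * I)) q.2‖ := by
    unfold sh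
    fun_prop
  refine hc.continuousAt.eventually (gt_mem_nhds ?_)
  simp only [Complex.ofReal_zero, zero_mul, Complex.exp_zero, mul_one, sub_self, norm_zero]
  exact hε

/-- **The number of zeros with multiplicity exceeds the number of distinct zeros on the line by at most the number of
zeros of `X` with `|Re| ≥ h`.** -/
theorem tot_le (hX : Sy X) (hD : ∀ b, X b = 0 → |b.re| ≤ D) (hz0 : ∃ b, X b = 0) (h0 : 0 < h) {t1 t2 : ℝ}
    (h12 : t1 < t2) (g1 : (t1 * I : ℂ) ∈ Dom X h) (g2 : (t2 * I : ℂ) ∈ Dom X h) (hu : ‖u‖ = 1) (A : Finset ℂ)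
    (hA : ∀ a ∈ A, t1 < a.im ∧ a.im < t2) :
    ∑ a ∈ A, analyticOrderNatAt (sh X h u) a ≤ (A.filter fun a => a.re = 0).card +
      nu X {s | X s = 0 ∧ h ≤ |s.re| ∧ t1 < s.im ∧ s.im < t2} := by
  classical
  have hfd := sh_diff hX.diff h u
  have hne := sh_ne hX hD hz0 h0 hu
  have hU0 : IsOpen {z : ℂ | t1 < z.im ∧ z.im < t2} :=
    (isOpen_lt continuous_const continuous_im).inter (isOpen_lt continuous_im continuous_const)
  have hU1 : IsOpen {z : ℂ | (t1 < z.im ∧ z.im < t2) ∧ z.re ≠ 0} :=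
    hU0.inter (isOpen_ne_fun continuous_re continuous_const)
  -- the radii
  have H1 : ∀ a : ℂ, ∃ δ : ℝ, 0 < δ ∧ (a ∈ A → ∀ ρ : ℝ, 0 < ρ → ρ < δ →
      (∀ z ∈ Metric.ball a ρ, (t1 < z.im ∧ z.im < t2) ∧ (a.re ≠ 0 → z.re ≠ 0)) ∧
      ∃ ε : ℝ, 0 < ε ∧ ∀ g : ℂ → ℂ, Differentiable ℂ g → (∀ z ∈ Metric.sphere a ρ, ‖sh X h u z - g z‖ < ε) →
      {z | z ∈ Metric.ball a ρ ∧ g z = 0}.Finite ∧ nb g a ρ = analyticOrderNatAt (sh X h u) a) := by
    intro a
    by_cases ha : a ∈ A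
    · by_cases hre : a.re = 0
      · obtain ⟨δ, hδ, hh⟩ := persist1 hfd hne a hU0 (hA a ha)
        refine ⟨δ, hδ, fun _ ρ h1 h2 => ⟨fun z hz => ⟨(hh ρ h1 h2).1 (Metric.ball_subset_closedBall hz),
          fun h3 => absurd hre h3⟩, (hh ρ h1 h2).2.2⟩⟩
      · obtain ⟨δ, hδ, hh⟩ := persist1 hfd hne a hU1 ⟨hA a ha, hre⟩
        refine ⟨δ, hδ, fun _ ρ h1 h2 => ⟨fun z hz => ?_, (hh ρ h1 h2).2.2⟩⟩
        have h3 := (hh ρ h1 h2).1 (Metric.ball_subset_closedBall hz)
        exact ⟨h3.1, fun _ => h3.2⟩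
    · exact ⟨1, one_pos, fun h => absurd h ha⟩
  choose δ1 hδ1 H1 using H1
  have H2 : ∀ a : ℂ, ∃ δ : ℝ, 0 < δ ∧ (a.re = 0 → ∀ ρ : ℝ, 0 < ρ → ρ < δ → ∀ᶠ e : ℝ in 𝓝[>] (0 : ℝ),
      ∀ B1 B2 : Finset ℂ,
      (∀ z ∈ B1, z ∈ Metric.ball a ρ ∧ sh X h (u * Complex.exp (e * I)) z = 0) →
      (∀ z ∈ B2, z ∈ Metric.ball a ρ ∧ sh X h (u * Complex.exp (-e * I)) z = 0) →
      ∑ b ∈ B1, analyticOrderNatAt (sh X h (u * Complex.exp (e * I))) b +
        ∑ b ∈ B2, analyticOrderNatAt (sh X h (u * Complex.exp (-e * I))) b ≤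
      ∑ b ∈ B1.filter (fun b => b.re ≠ 0), analyticOrderNatAt (sh X h (u * Complex.exp (e * I))) b +
        ∑ b ∈ B2.filter (fun b => b.re ≠ 0), analyticOrderNatAt (sh X h (u * Complex.exp (-e * I))) b +
        2 * analyticOrderNatAt X (a + h) + 2) := by
    intro a
    by_cases hre : a.re = 0
    · obtain ⟨δ, hδ, hh⟩ := loc hX hD hz0 h0 hu hre
      exact ⟨δ, hδ, fun _ => hh⟩
    · exact ⟨1, one_pos, fun h => absurd h hre⟩
  choose δ2 hδ2 H2 using H2
  obtain ⟨ρ, hρ, hρ1, hρ2, hρd⟩ : ∃ ρ : ℝ, 0 < ρ ∧ (∀ a ∈ A, ρ < δ1 a) ∧ (∀ a ∈ A, ρ < δ2 a) ∧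
      ∀ a ∈ A, ∀ b ∈ A, a ≠ b → 2 * ρ ≤ dist a b := by
    have e1 : ∀ᶠ ρ in 𝓝[>] (0 : ℝ), ∀ a ∈ A, ρ < δ1 a := by
      rw [Finset.eventually_all]
      intro a _
      exact (eventually_nhdsWithin_of_eventually_nhds (gt_mem_nhds (hδ1 a)))
    have e1' : ∀ᶠ ρ in 𝓝[>] (0 : ℝ), ∀ a ∈ A, ρ < δ2 a := by
      rw [Finset.eventually_all]
      intro a _
      exact (eventually_nhdsWithin_of_eventually_nhds (gt_mem_nhds (hδ2 a)))
    have e2 : ∀ᶠ ρ in 𝓝[>] (0 : ℝ), ∀ a ∈ A, ∀ b ∈ A, a ≠ b → 2 * ρ ≤ dist a b := by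
      rw [Finset.eventually_all]
      intro a _
      rw [Finset.eventually_all]
      intro b _
      by_cases hab : a = b
      · exact Eventually.of_forall fun _ h => absurd hab h
      · have : 0 < dist a b / 2 := by
          have := dist_pos.2 hab
          linarith
        filter_upwards [eventually_nhdsWithin_of_eventually_nhds (gt_mem_nhds this)] with ρ hρ _
        linarith
    obtain ⟨ρ, h1, h1', h2, h3⟩ := (e1.and (e1'.and (e2.and self_mem_nhdsWithin))).exists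
    exact ⟨ρ, h3, h1, h1', h2⟩
  have hball := fun a (ha : a ∈ A) => (H1 a ha ρ hρ (hρ1 a ha)).1
  -- the perturbation
  have hneg : Tendsto (fun e : ℝ => -e) (𝓝 0) (𝓝 0) := by
    have := (continuous_neg (G := ℝ)).tendsto 0
    simpa using this
  have E1 : ∀ᶠ e : ℝ in 𝓝[>] (0 : ℝ), ∀ a ∈ A,
      ({z | z ∈ Metric.ball a ρ ∧ sh X h (u * Complex.exp (e * I)) z = 0}.Finite ∧
        nb (sh X h (u * Complex.exp (e * I))) a ρ = analyticOrderNatAt (sh X h u) a) ∧
      ({z | z ∈ Metric.ball a ρ ∧ sh X h (u * Complex.exp (-e * I)) z = 0}.Finite ∧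
        nb (sh X h (u * Complex.exp (-e * I))) a ρ = analyticOrderNatAt (sh X h u) a) := by
    rw [Finset.eventually_all]
    intro a ha
    obtain ⟨-, ε, hε, hh⟩ := H1 a ha ρ hρ (hρ1 a ha)
    have c1 := close2 hX.diff.continuous h u (isCompact_sphere a ρ) hε
    have c2 := hneg.eventually c1
    filter_upwards [eventually_nhdsWithin_of_eventually_nhds c1, eventually_nhdsWithin_of_eventually_nhds c2] with e k1 k2
    refine ⟨hh _ (sh_diff hX.diff h _) k1, hh _ (sh_diff hX.diff h _) ?_⟩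
    intro z hz
    have := k2 z hz
    rw [Complex.ofReal_neg] at this
    exact this
  have E2 : ∀ᶠ e : ℝ in 𝓝[>] (0 : ℝ), ∀ a ∈ A, a.re = 0 → ∀ B1 B2 : Finset ℂ,
      (∀ z ∈ B1, z ∈ Metric.ball a ρ ∧ sh X h (u * Complex.exp (e * I)) z = 0) →
      (∀ z ∈ B2, z ∈ Metric.ball a ρ ∧ sh X h (u * Complex.exp (-e * I)) z = 0) →
      ∑ b ∈ B1, analyticOrderNatAt (sh X h (u * Complex.exp (e * I))) b +
        ∑ b ∈ B2, analyticOrderNatAt (sh X h (u * Complex.exp (-e * I))) b ≤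
      ∑ b ∈ B1.filter (fun b => b.re ≠ 0), analyticOrderNatAt (sh X h (u * Complex.exp (e * I))) b +
        ∑ b ∈ B2.filter (fun b => b.re ≠ 0), analyticOrderNatAt (sh X h (u * Complex.exp (-e * I))) b +
        2 * analyticOrderNatAt X (a + h) + 2 := by
    rw [Finset.eventually_all]
    intro a ha
    by_cases hre : a.re = 0
    · filter_upwards [H2 a hre ρ hρ (hρ2 a ha)] with e he _
      exact he
    · exact Eventually.of_forall fun _ h => absurd h hre
  obtain ⟨e, he1, he2⟩ := (E1.and E2).exists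
  -- the zeros of the perturbed functions
  have hB : ∀ u' : ℂ, (∀ a ∈ A, {z | z ∈ Metric.ball a ρ ∧ sh X h u' z = 0}.Finite ∧
      nb (sh X h u') a ρ = analyticOrderNatAt (sh X h u) a) → ∀ a : ℂ, ∃ B : Finset ℂ,
      a ∈ A → (∀ z, z ∈ B ↔ z ∈ Metric.ball a ρ ∧ sh X h u' z = 0) ∧
      ∑ b ∈ B, analyticOrderNatAt (sh X h u') b = analyticOrderNatAt (sh X h u) a := by
    intro u' hu' a
    by_cases ha : a ∈ A
    · obtain ⟨hfin, hnb⟩ := hu' a ha
      refine ⟨hfin.toFinset, fun _ => ⟨fun z => by rw [Set.Finite.mem_toFinset]; rfl, ?_⟩⟩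
      rw [← hnb]
      unfold nb
      symm
      rw [finsum_mem_eq_sum_of_inter_support_eq]
      ext z
      rw [Set.mem_inter_iff, Set.mem_inter_iff, Finset.mem_coe, Set.Finite.mem_toFinset]
      constructor
      · rintro ⟨k1, k2⟩
        refine ⟨⟨k1, ?_⟩, k2⟩
        by_contra hgz
        exact k2 (ord_zero (sh_diff hX.diff h u') hgz)
      · rintro ⟨⟨k1, -⟩, k2⟩
        exact ⟨k1, k2⟩
    · exact ⟨∅, fun h => absurd h ha⟩
  -- zeros off the line
  have hoff : ∀ u' : ℂ, ‖u'‖ = 1 → ∀ B : ℂ → Finset ℂ,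
      (∀ a ∈ A, ∀ z, z ∈ B a ↔ z ∈ Metric.ball a ρ ∧ sh X h u' z = 0) →
      ∑ a ∈ A, ∑ b ∈ (B a).filter (fun b => b.re ≠ 0), analyticOrderNatAt (sh X h u') b ≤
        nu X {s | X s = 0 ∧ h < |s.re| ∧ t1 < s.im ∧ s.im < t2} := by
    intro u' hu' B hB
    rw [← Finset.sum_biUnion]
    · refine off_le hX hD h0 h12 g1 g2 hu' _ fun b hb => ?_
      obtain ⟨a, ha, hba⟩ := Finset.mem_biUnion.1 hb
      rw [Finset.mem_filter] at hba
      exact ⟨hba.2, (hball a ha b ((hB a ha b).1 hba.1).1).1⟩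
    · intro a ha b hb hab
      rw [Function.onFun, Finset.disjoint_left]
      intro z hz1 hz2
      have k1 := ((hB a ha z).1 (Finset.mem_filter.1 hz1).1).1
      have k2 := ((hB b hb z).1 (Finset.mem_filter.1 hz2).1).1
      rw [Metric.mem_ball] at k1 k2
      have k3 := dist_triangle_left a b z
      have k4 := hρd a ha b hb hab
      linarith
  have hv1 : ‖u * Complex.exp (e * I)‖ = 1 := norm_rot hu e
  have hv2 : ‖u * Complex.exp (-e * I)‖ = 1 := by
    have := norm_rot hu (-e)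
    rw [Complex.ofReal_neg] at this
    exact this
  choose B1 hB1 using hB _ fun a ha => (he1 a ha).1
  choose B2 hB2 using hB _ fun a ha => (he1 a ha).2
  have o1 := hoff _ hv1 B1 fun a ha => (hB1 a ha).1
  have o2 := hoff _ hv2 B2 fun a ha => (hB2 a ha).1
  obtain ⟨M, hM⟩ : ∃ M : ℕ, M = nu X {s | X s = 0 ∧ h < |s.re| ∧ t1 < s.im ∧ s.im < t2} := ⟨_, rfl⟩
  rw [← hM] at o1 o2
  have hterm : ∀ a ∈ A, 2 * analyticOrderNatAt (sh X h u) a ≤
      ∑ b ∈ (B1 a).filter (fun b => b.re ≠ 0), analyticOrderNatAt (sh X h (u * Complex.exp (e * I))) b +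
      ∑ b ∈ (B2 a).filter (fun b => b.re ≠ 0), analyticOrderNatAt (sh X h (u * Complex.exp (-e * I))) b +
      (if a.re = 0 then 2 * analyticOrderNatAt X (a + h) + 2 else 0) := by
    intro a ha
    obtain ⟨p1, p2⟩ := hB1 a ha
    obtain ⟨m1, m2⟩ := hB2 a ha
    by_cases hre : a.re = 0
    · rw [if_pos hre]
      have := he2 a ha hre (B1 a) (B2 a) (fun z hz => (p1 z).1 hz) (fun z hz => (m1 z).1 hz)
      rw [p2, m2] at this
      omega
    · rw [if_neg hre]
      have q1 : (B1 a).filter (fun b => b.re ≠ 0) = B1 a :=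
        Finset.filter_true_of_mem fun z hz => (hball a ha z ((p1 z).1 hz).1).2 hre
      have q2 : (B2 a).filter (fun b => b.re ≠ 0) = B2 a :=
        Finset.filter_true_of_mem fun z hz => (hball a ha z ((m1 z).1 hz).1).2 hre
      rw [q1, q2, p2, m2]
      omega
  have hsum := Finset.sum_le_sum hterm
  rw [← Finset.mul_sum, Finset.sum_add_distrib, Finset.sum_add_distrib, ← Finset.sum_filter,
    Finset.sum_add_distrib, ← Finset.mul_sum, Finset.sum_const, smul_eq_mul] at hsum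
  -- the zeros of `X` with real part `h`
  have hfinT := fin_T hX hD t1 t2
  have hf1 : {s | X s = 0 ∧ h < |s.re| ∧ t1 < s.im ∧ s.im < t2}.Finite :=
    hfinT.subset fun s hs => ⟨hs.1, hs.2.2.1.le, hs.2.2.2.le⟩
  have hf2 : {s | X s = 0 ∧ h ≤ |s.re| ∧ t1 < s.im ∧ s.im < t2}.Finite :=
    hfinT.subset fun s hs => ⟨hs.1, hs.2.2.1.le, hs.2.2.2.le⟩
  have hfinal : M + ∑ a ∈ A.filter (fun a => a.re = 0), analyticOrderNatAt X (a + h) ≤
      nu X {s | X s = 0 ∧ h ≤ |s.re| ∧ t1 < s.im ∧ s.im < t2} := by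
    rw [hM, nu_eq hf1]
    have h5 : ∑ a ∈ A.filter (fun a => a.re = 0), analyticOrderNatAt X (a + h) =
        ∑ s ∈ ((A.filter (fun a => a.re = 0)).image (fun s => s + (h : ℂ))).filter (fun s => X s = 0),
          analyticOrderNatAt X s := by
      have h6 : ∑ s ∈ ((A.filter (fun a => a.re = 0)).image (fun s => s + (h : ℂ))).filter (fun s => X s = 0),
          analyticOrderNatAt X s = ∑ s ∈ (A.filter (fun a => a.re = 0)).image (fun s => s + (h : ℂ)),
          analyticOrderNatAt X s := by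
        refine Finset.sum_filter_of_ne fun x _ hx0 => ?_
        by_contra hx1
        exact hx0 (ord_zero hX.diff hx1)
      rw [h6, Finset.sum_image (fun a _ b _ hab => add_right_cancel hab)]
    rw [h5, ← Finset.sum_union]
    · refine le_nu hf2 _ fun s hs => ?_
      rcases Finset.mem_union.1 hs with hs | hs
      · rw [Set.Finite.mem_toFinset] at hs
        exact ⟨hs.1, hs.2.1.le, hs.2.2⟩
      · rw [Finset.mem_filter] at hs
        obtain ⟨w, hw, hws⟩ := Finset.mem_image.1 hs.1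
        rw [Finset.mem_filter] at hw
        have k1 := hA w hw.1
        refine ⟨hs.2, ?_, ?_, ?_⟩
        · rw [← hws, Complex.add_re, Complex.ofReal_re, hw.2, zero_add]
          exact le_abs_self _
        · rw [← hws, Complex.add_im, Complex.ofReal_im, add_zero]
          exact k1.1
        · rw [← hws, Complex.add_im, Complex.ofReal_im, add_zero]
          exact k1.2
    · rw [Finset.disjoint_left]
      intro s hs1 hs2
      rw [Set.Finite.mem_toFinset] at hs1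
      rw [Finset.mem_filter] at hs2
      obtain ⟨w, hw, hws⟩ := Finset.mem_image.1 hs2.1
      rw [Finset.mem_filter] at hw
      have k1 : s.re = h := by
        rw [← hws, Complex.add_re, Complex.ofReal_re, hw.2, zero_add]
      have k2 := hs1.2.1
      rw [k1, abs_of_pos h0] at k2
      exact lt_irrefl _ k2
  omega

end

end Pool.Agent.N76.SH
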