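import Pool.Agent.N76.SH.Fin

set_option autoImplicit false

/-!
# The theorems in terms of a function `Λ` symmetric about the line `Re s = a`
-/

namespace Pool.Agent.N76.SH

open Filter Complex Topology Set
open Pool.Agent.R838.TW (Sy)
open Pool.Agent.Y22.RX (S)
open scoped ComplexConjugate

noncomputable section

/-- zeros in a horizontal strip -/
theorem str_fin {X : ℂ → ℂ} (hX : Sy X) {D : ℝ} (hD : ∀ b, X b = 0 → |b.re| ≤ D) (hz0 : ∃ b, X b = 0) {h : ℝ}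
    (h0 : 0 < h) {u : ℂ} (hu : ‖u‖ = 1) (t1 t2 : ℝ) : {s | sh X h u s = 0 ∧ t1 < s.im ∧ s.im < t2}.Finite := by
  obtain ⟨w, hw⟩ := sh_ne hX hD hz0 h0 hu
  have hK : IsCompact (Icc (-|D|) |D| ×ℂ Icc t1 t2) := isCompact_Icc.reProdIm isCompact_Icc
  refine (Pool.Agent.W605.SD.fin_zeros (sh_diff hX.diff h u) hw hK).subset ?_
  rintro s ⟨h1, h2, h3⟩
  refine ⟨?_, h1⟩
  rw [mem_reProdIm]
  refine ⟨?_, h2.le, h3.le⟩
  by_cases hre : s.re = 0
  · show s.re ∈ _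
    rw [hre]
    exact ⟨by simp, abs_nonneg D⟩
  · obtain ⟨b, hb, h4⟩ := discs hX hD hz0 h0 hu h1 (Or.inl hre)
    have h5 := abs_le_sq (hD b hb)
    have h6 : |s.re| ≤ |D| := by
      rw [← sq_le_sq]
      nlinarith [sq_nonneg (s.im - b.im), sq_nonneg h]
    exact abs_le.1 h6

theorem tot_set {X : ℂ → ℂ} (hX : Sy X) {D : ℝ} (hD : ∀ b, X b = 0 → |b.re| ≤ D) (hz0 : ∃ b, X b = 0) {h : ℝ}
    (h0 : 0 < h) {t1 t2 : ℝ} (h12 : t1 < t2) (g1 : (t1 * I : ℂ) ∈ Dom X h) (g2 : (t2 * I : ℂ) ∈ Dom X h) {u : ℂ}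
    (hu : ‖u‖ = 1) :
    nu (sh X h u) {s | sh X h u s = 0 ∧ t1 < s.im ∧ s.im < t2} ≤
      {s | sh X h u s = 0 ∧ s.re = 0 ∧ t1 < s.im ∧ s.im < t2}.ncard +
        nu X {s | X s = 0 ∧ h ≤ |s.re| ∧ t1 < s.im ∧ s.im < t2} := by
  classical
  have hfin := str_fin hX hD hz0 h0 hu t1 t2
  rw [nu_eq hfin]
  refine (tot_le hX hD hz0 h0 h12 g1 g2 hu _ fun a ha => ?_).trans (add_le_add (le_of_eq ?_) le_rfl)
  · rw [Set.Finite.mem_toFinset] at ha
    exact ha.2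
  · rw [← Set.ncard_coe_finset]
    congr 1
    ext z
    simp only [Finset.coe_filter, Set.Finite.mem_toFinset, Set.mem_ofPred_eq]
    tauto

/-- the shifted sum -/
def Shift (Λ : ℂ → ℂ) (h : ℝ) (u : ℂ) (s : ℂ) : ℂ := Λ (s + h) + u * Λ (s - h)

lemma nu_tr {G : ℂ → ℂ} (hG : Differentiable ℂ G) {v : ℂ} (hv : v ≠ 0) (a : ℂ) (B : Set ℂ) :
    nu (fun z => v * G (a + z)) {z | a + z ∈ B} = nu G B := by
  have h1 : B = (fun z => a + z) '' {z | a + z ∈ B} := by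
    ext s
    constructor
    · intro hs
      exact ⟨s - a, by rw [Set.mem_ofPred_eq, add_sub_cancel]; exact hs, add_sub_cancel a s⟩
    · rintro ⟨z, hz, rfl⟩
      exact hz
  unfold nu
  conv_rhs => rw [h1]
  rw [finsum_mem_image (fun x _ y _ hxy => add_left_cancel hxy)]
  refine finsum_mem_congr rfl fun z _ => ?_
  have h2 : Differentiable ℂ fun z => G (a + z) := hG.comp (by fun_prop)
  rw [ord_const_mul (X := fun z => G (a + z)) h2 hv]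
  have h3 : (fun z => G (a + z)) = fun z => G (z + a) := by
    funext z
    rw [add_comm]
  rw [h3, ord_shift, add_comm]

lemma sh_tr (Λ : ℂ → ℂ) (v a : ℂ) (h : ℝ) (u : ℂ) :
    sh (fun z => v * Λ (a + z)) h u = fun z => v * Shift Λ h u (a + z) := by
  funext z
  unfold sh Shift
  simp only
  rw [← add_assoc, ← add_sub_assoc]
  ring

lemma shift_diff {Λ : ℂ → ℂ} (hΛ : Differentiable ℂ Λ) (h : ℝ) (u : ℂ) : Differentiable ℂ (Shift Λ h u) :=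
  sh_diff hΛ h u

/-- **Main theorem.** -/
theorem master {Λ : ℂ → ℂ} (hΛ : Differentiable ℂ Λ) {v : ℂ} (hv : v ≠ 0) {a : ℝ}
    (hX : Sy (fun z => v * Λ ((a : ℂ) + z))) (hD : ∀ b, v * Λ ((a : ℂ) + b) = 0 → |b.re| ≤ 1 / 2)
    (hz0 : ∃ b, v * Λ ((a : ℂ) + b) = 0) (hfe : ∃ k : ℂ, k ≠ 0 ∧ ∀ s, Λ (2 * a - s) = k * Λ s)
    (hcount : ∀ c : ℝ, c < 1 → ∃ C : ℝ, 0 < C ∧ ∀ d T : ℝ, 0 ≤ d → 2 ≤ T →
      (nu (fun z => v * Λ ((a : ℂ) + z)) (S (fun z => v * Λ ((a : ℂ) + z)) d T) : ℝ) ≤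
        C * T ^ (1 - c * d) * Real.log T) :
    (∀ h : ℝ, 0 < h → ∀ u : ℂ, ‖u‖ = 1 →
      (∀ s, Shift Λ h u s = 0 → (s.re ≠ a ∨ deriv (Shift Λ h u) s = 0) →
        ∃ ρ, Λ ρ = 0 ∧ (s.re - a) ^ 2 + (s.im - ρ.im) ^ 2 ≤ (ρ.re - a) ^ 2 - h ^ 2) ∧
      ∀ t1 t2 : ℝ, t1 < t2 → (∀ ρ, Λ ρ = 0 → (ρ.re - a) ^ 2 < h ^ 2 + (t1 - ρ.im) ^ 2) →
        (∀ ρ, Λ ρ = 0 → (ρ.re - a) ^ 2 < h ^ 2 + (t2 - ρ.im) ^ 2) →
        {s | Shift Λ h u s = 0 ∧ t1 < s.im ∧ s.im < t2}.Finite ∧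
        nu (Shift Λ h u) {s | Shift Λ h u s = 0 ∧ t1 < s.im ∧ s.im < t2} ≤
          {s | Shift Λ h u s = 0 ∧ s.re = a ∧ t1 < s.im ∧ s.im < t2}.ncard +
            nu Λ {s | Λ s = 0 ∧ h ≤ |s.re - a| ∧ t1 < s.im ∧ s.im < t2}) ∧
    (∀ c : ℝ, c < 1 → ∃ C : ℝ, 0 < C ∧ ∀ h T : ℝ, 0 < h → 2 ≤ T → C ≤ h * Real.log T → ∀ u : ℂ, ‖u‖ = 1 →
      {s | Shift Λ h u s = 0 ∧ (s.re ≠ a ∨ deriv (Shift Λ h u) s = 0) ∧ |s.im| ≤ T}.Finite ∧
      (nu (Shift Λ h u) {s | Shift Λ h u s = 0 ∧ (s.re ≠ a ∨ deriv (Shift Λ h u) s = 0) ∧ |s.im| ≤ T} : ℝ) ≤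
        C * T ^ (1 - c * h) * Real.log T) ∧
    (∀ h : ℝ, 0 < h → ((∀ ρ, Λ ρ = 0 → |ρ.re - a| ≤ h) ↔
      ∀ u : ℂ, ‖u‖ = 1 → ∀ s, Shift Λ h u s = 0 → s.re = a)) ∧
    ∀ u : ℂ, ‖u‖ = 1 → u ≠ -1 → ((∀ ρ, Λ ρ = 0 → ρ.re = a) ↔
      ∀ ε : ℝ, 0 < ε → ∃ h : ℝ, 0 < h ∧ h < ε ∧ ∀ s, Shift Λ h u s = 0 → s.re = a) := by
  obtain ⟨X, hXdef⟩ : ∃ X : ℂ → ℂ, X = fun z => v * Λ ((a : ℂ) + z) := ⟨_, rfl⟩
  have hXz : ∀ z, X z = v * Λ ((a : ℂ) + z) := fun z => by rw [hXdef]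
  have hsh : ∀ (h : ℝ) (u : ℂ), sh X h u = fun z => v * Shift Λ h u ((a : ℂ) + z) := fun h u => by
    rw [hXdef]
    exact sh_tr Λ v a h u
  rw [← hXdef] at hX hcount
  have hD' : ∀ b, X b = 0 → |b.re| ≤ 1 / 2 := fun b hb => hD b (by rw [← hXz]; exact hb)
  have hz0' : ∃ b, X b = 0 := by
    obtain ⟨b, hb⟩ := hz0
    exact ⟨b, by rw [hXz]; exact hb⟩
  have hXΛ : ∀ z, X z = 0 ↔ Λ ((a : ℂ) + z) = 0 := fun z => by
    rw [hXz, mul_eq_zero]
    exact or_iff_right hv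
  have hshΛ : ∀ (h : ℝ) (u z : ℂ), sh X h u z = 0 ↔ Shift Λ h u ((a : ℂ) + z) = 0 := fun h u z => by
    rw [hsh h u]
    simp only
    rw [mul_eq_zero]
    exact or_iff_right hv
  have hder : ∀ (h : ℝ) (u z : ℂ), deriv (sh X h u) z = 0 ↔ deriv (Shift Λ h u) ((a : ℂ) + z) = 0 := by
    intro h u z
    have h1 : HasDerivAt (sh X h u) (v * deriv (Shift Λ h u) ((a : ℂ) + z)) z := by
      rw [hsh h u]
      exact ((shift_diff hΛ h u _).hasDerivAt.comp_const_add (a : ℂ) z).const_mul v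
    rw [h1.deriv, mul_eq_zero]
    exact or_iff_right hv
  have hre : ∀ z : ℂ, ((a : ℂ) + z).re = a + z.re := fun z => by simp
  have him : ∀ z : ℂ, ((a : ℂ) + z).im = z.im := fun z => by simp
  have hsub : ∀ s : ℂ, (a : ℂ) + (s - a) = s := fun s => by ring
  have hsre : ∀ s : ℂ, (s - (a : ℂ)).re = s.re - a := fun s => by simp
  have hsim : ∀ s : ℂ, (s - (a : ℂ)).im = s.im := fun s => by simp
  have hdom : ∀ (h t : ℝ), (∀ ρ, Λ ρ = 0 → (ρ.re - a) ^ 2 < h ^ 2 + (t - ρ.im) ^ 2) → (t * I : ℂ) ∈ Dom X h := by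
    intro h t ht b hb
    have h1 := ht _ ((hXΛ b).1 hb)
    rw [hre, him, add_sub_cancel_left] at h1
    simpa using h1
  have hnuΛ : ∀ B : Set ℂ, nu Λ B = nu X {z | (a : ℂ) + z ∈ B} := fun B => by
    rw [hXdef]
    exact (nu_tr hΛ hv _ B).symm
  have hnuS : ∀ (h : ℝ) (u : ℂ) (B : Set ℂ), nu (Shift Λ h u) B = nu (sh X h u) {z | (a : ℂ) + z ∈ B} := fun h u B => by
    rw [hsh h u]
    exact (nu_tr (shift_diff hΛ h u) hv _ B).symm
  have hfinB : ∀ B : Set ℂ, {z | (a : ℂ) + z ∈ B}.Finite → B.Finite := by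
    intro B hB
    have h1 : B = (fun z => (a : ℂ) + z) '' {z | (a : ℂ) + z ∈ B} := by
      ext s
      constructor
      · intro hs
        exact ⟨s - a, by rw [Set.mem_ofPred_eq, hsub]; exact hs, hsub s⟩
      · rintro ⟨z, hz, rfl⟩
        exact hz
    rw [h1]
    exact hB.image _
  refine ⟨fun h h0 u hu => ⟨fun s hs hs2 => ?_, fun t1 t2 h12 g1 g2 => ⟨?_, ?_⟩⟩, fun c hc => ?_, fun h h0 => ?_,
    fun u hu hu1 => ?_⟩
  · obtain ⟨b, hb, h1⟩ := discs hX hD' hz0' h0 hu (z := s - a) (by rw [hshΛ, hsub]; exact hs) (by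
      rcases hs2 with h1 | h1
      · left
        rw [hsre]
        exact sub_ne_zero.2 h1
      · right
        rw [hder, hsub]
        exact h1)
    refine ⟨(a : ℂ) + b, (hXΛ b).1 hb, ?_⟩
    rw [hre, him, add_sub_cancel_left]
    rw [hsre, hsim] at h1
    exact h1
  · apply hfinB
    refine (str_fin hX hD' hz0' h0 hu t1 t2).subset ?_
    rintro z ⟨k1, k2, k3⟩
    rw [him] at k2 k3
    exact ⟨(hshΛ h u z).2 k1, k2, k3⟩
  · have h1 := tot_set hX hD' hz0' h0 h12 (hdom h t1 g1) (hdom h t2 g2) hu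
    rw [hnuS, hnuΛ]
    have e1 : {z | (a : ℂ) + z ∈ {s | Shift Λ h u s = 0 ∧ t1 < s.im ∧ s.im < t2}} =
        {s | sh X h u s = 0 ∧ t1 < s.im ∧ s.im < t2} := by
      ext z
      simp only [Set.mem_ofPred_eq, hshΛ, him]
    have e2 : {z | (a : ℂ) + z ∈ {s | Λ s = 0 ∧ h ≤ |s.re - a| ∧ t1 < s.im ∧ s.im < t2}} =
        {s | X s = 0 ∧ h ≤ |s.re| ∧ t1 < s.im ∧ s.im < t2} := by
      ext z
      simp only [Set.mem_ofPred_eq, hXΛ, him, hre, add_sub_cancel_left]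
    have e3 : {s | Shift Λ h u s = 0 ∧ s.re = a ∧ t1 < s.im ∧ s.im < t2} =
        (fun z => (a : ℂ) + z) '' {s | sh X h u s = 0 ∧ s.re = 0 ∧ t1 < s.im ∧ s.im < t2} := by
      ext s
      constructor
      · rintro ⟨k1, k2, k3, k4⟩
        refine ⟨s - a, ⟨?_, ?_, ?_, ?_⟩, hsub s⟩
        · rw [hshΛ, hsub]
          exact k1
        · rw [hsre, k2, sub_self]
        · rw [hsim]
          exact k3
        · rw [hsim]
          exact k4
      · rintro ⟨z, ⟨k1, k2, k3, k4⟩, rfl⟩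
        refine ⟨(hshΛ h u z).1 k1, ?_, ?_, ?_⟩
        · show ((a : ℂ) + z).re = a
          rw [hre, k2, add_zero]
        · show t1 < ((a : ℂ) + z).im
          rw [him]
          exact k3
        · show ((a : ℂ) + z).im < t2
          rw [him]
          exact k4
    rw [e1, e2, e3, Set.ncard_image_of_injective _ (add_right_injective (a : ℂ))]
    exact h1
  · obtain ⟨C, hC, h1⟩ := ex_count hX hD' hz0' (by
      obtain ⟨k, hk, hkf⟩ := hfe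
      refine ⟨k, hk, fun z => ?_⟩
      rw [hXz, hXz]
      have h2 := hkf ((a : ℂ) + z)
      have h3 : 2 * (a : ℂ) - ((a : ℂ) + z) = (a : ℂ) + -z := by ring
      rw [h3] at h2
      rw [h2]
      ring) hcount hc
    refine ⟨C, hC, fun h T h0 hT hlog u hu => ?_⟩
    have e1 : {z | (a : ℂ) + z ∈ {s | Shift Λ h u s = 0 ∧ (s.re ≠ a ∨ deriv (Shift Λ h u) s = 0) ∧ |s.im| ≤ T}} =
        Ex X h u T := by
      ext z
      unfold Ex
      simp only [Set.mem_ofPred_eq, hshΛ, him, hre, hder, ne_eq, add_eq_left]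
    refine ⟨hfinB _ ?_, ?_⟩
    · rw [e1]
      exact Ex_fin hX hD' hz0' h0 hu T
    · rw [hnuS, e1]
      exact h1 h T h0 hT hlog u hu
  · have h1 := strip_iff hX hD' hz0' h0
    constructor
    · intro h2 u hu s hs
      have h3 := h1.1 (fun b hb => by
        have := h2 _ ((hXΛ b).1 hb)
        rwa [hre, add_sub_cancel_left] at this) u hu (s - a) (by rw [hshΛ, hsub]; exact hs)
      rw [hsre] at h3
      linarith
    · intro h2 ρ hρ
      have h3 := h1.2 (fun u hu s hs => by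
        have := h2 u hu _ ((hshΛ h u s).1 hs)
        rw [hre] at this
        linarith) (ρ - a) (by rw [hXΛ, hsub]; exact hρ)
      rwa [hsre] at h3
  · constructor
    · intro h2 ε hε
      refine ⟨ε / 2, by positivity, by linarith, fun s hs => ?_⟩
      have h3 := (strip_iff hX hD' hz0' (h := ε / 2) (by positivity)).1 (fun b hb => by
        have := h2 _ ((hXΛ b).1 hb)
        rw [hre] at this
        have h4 : b.re = 0 := by linarith
        rw [h4, abs_zero]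
        positivity) u hu (s - a) (by rw [hshΛ, hsub]; exact hs)
      rw [hsre] at h3
      linarith
    · intro h2 ρ hρ
      have h3 := zero_of_small hX hu1 (fun ε hε => by
        obtain ⟨h, k1, k2, k3⟩ := h2 ε hε
        refine ⟨h, k1, k2, fun s hs => ?_⟩
        have := k3 _ ((hshΛ h u s).1 hs)
        rw [hre] at this
        linarith) (ρ - a) (by rw [hXΛ, hsub]; exact hρ)
      rw [hsre] at h3
      linarith

end

end Pool.Agent.N76.SH
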