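import Pool.Agent.R838.TW.Gro
import Pool.Agent.W605.SD.FinA

set_option autoImplicit false

/-!
# Two-point comparison for symmetric entire functions

`Φ` is entire of order at most `3/2` with `Φ (-(conj z)) = conj (Φ z)`. If every zero `b` of `Φ` satisfies
`(Re b)² < (Re z)² + h² + (Im z - Im b)²` (`z ∈ Dom Φ h`) and `Re z > 0`, `h > 0`, then `|Φ (z - h)| < |Φ (z + h)|`.
-/

namespace Pool.Agent.N76.SH

open Filter Complex Topology Polynomial Set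
open Pool.Agent.R838.TW (Sy)
open Pool.Agent.Y22.LM (q q_nonneg q_eq norm_eval_pow4)
open scoped ComplexConjugate

noncomputable section

lemma q_two {β x a b : ℝ} (hab : a ^ 2 ≤ b ^ 2) (h : 2 * β ^ 2 ≤ a ^ 2 + b ^ 2 + 2 * x ^ 2) :
    q β x a ≤ q β x b := by
  rw [q_eq, q_eq]
  nlinarith [mul_nonneg (sub_nonneg.2 hab) (sub_nonneg.2 h)]

lemma two_poly {p : ℂ[X]} {t a b : ℝ}
    (hsym : ∀ h : ℝ, ‖p.eval (-h + t * I : ℂ)‖ = ‖p.eval (h + t * I : ℂ)‖)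
    (hab : a ^ 2 ≤ b ^ 2) (hZ : ∀ c ∈ p.roots, 2 * c.re ^ 2 ≤ a ^ 2 + b ^ 2 + 2 * (t - c.im) ^ 2) :
    ‖p.eval (a + t * I : ℂ)‖ ≤ ‖p.eval (b + t * I : ℂ)‖ := by
  have h4 : ‖p.eval (a + t * I : ℂ)‖ ^ 4 ≤ ‖p.eval (b + t * I : ℂ)‖ ^ 4 := by
    rw [norm_eval_pow4 hsym, norm_eval_pow4 hsym]
    refine mul_le_mul_of_nonneg_left ?_ (by positivity)
    refine Multiset.prod_map_le_prod_map₀ _ _ (fun b _ => q_nonneg _ _ _) fun c hc => ?_
    exact q_two hab (hZ c hc)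
  exact le_of_pow_le_pow_left₀ (by norm_num) (norm_nonneg _) h4

/-- the two-point inequality -/
theorem two_le {Φ : ℂ → ℂ} (h : Sy Φ) {t a b : ℝ} (hab : a ^ 2 ≤ b ^ 2)
    (hZ : ∀ c : ℂ, Φ c = 0 → 2 * c.re ^ 2 ≤ a ^ 2 + b ^ 2 + 2 * (t - c.im) ^ 2) :
    ‖Φ (a + t * I : ℂ)‖ ≤ ‖Φ (b + t * I : ℂ)‖ := by
  obtain ⟨R, hR1, hR2, hR3⟩ := h.app
  have hN : ∀ N, ‖(R N).eval (a + t * I : ℂ)‖ ≤ ‖(R N).eval (b + t * I : ℂ)‖ := by
    intro N
    refine two_poly (fun x => hR3 N x t) hab fun c hc => ?_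
    rcases hR1 N c (Polynomial.isRoot_of_mem_roots hc) with h6 | h6
    · exact hZ c h6
    · rw [h6]
      nlinarith [sq_nonneg a, sq_nonneg b, sq_nonneg (t - c.im)]
  have h3 : ‖Φ (a + t * I : ℂ) * Φ (a + t * I : ℂ)‖ ≤ ‖Φ (b + t * I : ℂ) * Φ (b + t * I : ℂ)‖ :=
    le_of_tendsto_of_tendsto' (hR2 _).norm (hR2 _).norm hN
  rw [norm_mul, norm_mul] at h3
  exact abs_le_of_sq_le_sq' (by nlinarith) (norm_nonneg _) |>.2

/-- the points outside all discs -/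
def Dom (Φ : ℂ → ℂ) (h : ℝ) : Set ℂ := {z | ∀ b, Φ b = 0 → b.re ^ 2 < z.re ^ 2 + h ^ 2 + (z.im - b.im) ^ 2}

theorem mem_Dom_mono {Φ : ℂ → ℂ} {h h' : ℝ} {z z' : ℂ} (hz : z ∈ Dom Φ h) (hre : z.re ^ 2 + h ^ 2 ≤ z'.re ^ 2 + h' ^ 2)
    (him : z'.im = z.im) : z' ∈ Dom Φ h' := by
  intro b hb
  have := hz b hb
  rw [him]
  linarith

theorem isOpen_Dom {Φ : ℂ → ℂ} (hΦ : Sy Φ) {D : ℝ} (hD : ∀ b, Φ b = 0 → |b.re| ≤ D) (h : ℝ) : IsOpen (Dom Φ h) := by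
  rw [isOpen_iff_mem_nhds]
  intro z hz
  obtain ⟨w0, hw0⟩ := hΦ.ne
  have hK : IsCompact (Icc (-D) D ×ℂ Icc (z.im - (D + 1)) (z.im + (D + 1))) :=
    isCompact_Icc.reProdIm isCompact_Icc
  have hfin := Pool.Agent.W605.SD.fin_zeros hΦ.diff hw0 hK
  have h1 : ∀ᶠ w in 𝓝 z, ∀ b ∈ {s | s ∈ Icc (-D) D ×ℂ Icc (z.im - (D + 1)) (z.im + (D + 1)) ∧ Φ s = 0},
      b.re ^ 2 < w.re ^ 2 + h ^ 2 + (w.im - b.im) ^ 2 := by
    rw [hfin.eventually_all]
    intro b hb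
    have hc : Continuous fun w : ℂ => w.re ^ 2 + h ^ 2 + (w.im - b.im) ^ 2 := by fun_prop
    exact hc.continuousAt.eventually (lt_mem_nhds (hz b hb.2))
  have h2 : ∀ᶠ w in 𝓝 z, |w.im - z.im| < 1 := by
    have hc : Continuous fun w : ℂ => |w.im - z.im| := by fun_prop
    have := hc.continuousAt (x := z)
    refine this.eventually (gt_mem_nhds ?_)
    simp
  filter_upwards [h1, h2] with w hw1 hw2 b hb
  by_cases hb1 : b ∈ {s | s ∈ Icc (-D) D ×ℂ Icc (z.im - (D + 1)) (z.im + (D + 1)) ∧ Φ s = 0}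
  · exact hw1 b hb1
  · have hbD := hD b hb
    have h3 : D + 1 < |z.im - b.im| := by
      by_contra hcon
      push Not at hcon
      apply hb1
      refine ⟨?_, hb⟩
      rw [mem_reProdIm]
      have h4 := abs_le.1 hbD
      have h5 := abs_le.1 hcon
      refine ⟨⟨h4.1, h4.2⟩, ?_, ?_⟩ <;> linarith [h5.1, h5.2]
    have h4 : |z.im - b.im| ≤ |w.im - z.im| + |w.im - b.im| := by
      have : z.im - b.im = -(w.im - z.im) + (w.im - b.im) := by ring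
      rw [this]
      refine (abs_add_le _ _).trans ?_
      rw [abs_neg]
    have h5 : D < |w.im - b.im| := by linarith
    have h6 : b.re ^ 2 < (w.im - b.im) ^ 2 := by
      rw [sq_lt_sq]
      linarith
    have : 0 ≤ w.re ^ 2 + h ^ 2 := by positivity
    linarith

/-- no zero at `z + h` -/
theorem ne_of_dom {Φ : ℂ → ℂ} {h : ℝ} {z : ℂ} (hz : z ∈ Dom Φ h) (h0 : 0 ≤ h) (hre : 0 ≤ z.re) :
    Φ (z + h) ≠ 0 := by
  intro hb
  have := hz _ hb
  simp only [add_re, ofReal_re, add_im, ofReal_im, add_zero, sub_self] at this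
  nlinarith [mul_nonneg h0 hre]

theorem le_of_dom {Φ : ℂ → ℂ} (hΦ : Sy Φ) {h : ℝ} {z : ℂ} (hz : z ∈ Dom Φ h) (h0 : 0 ≤ h) (hre : 0 ≤ z.re) :
    ‖Φ (z - h)‖ ≤ ‖Φ (z + h)‖ := by
  have h1 := two_le hΦ (t := z.im) (a := z.re - h) (b := z.re + h) (by nlinarith [mul_nonneg h0 hre])
    (fun c hc => by
      have := hz c hc
      nlinarith)
  have e1 : ((z.re - h : ℝ) : ℂ) + z.im * I = z - h := by
    apply Complex.ext <;> simp
  have e2 : ((z.re + h : ℝ) : ℂ) + z.im * I = z + h := by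
    apply Complex.ext <;> simp
  rw [e1, e2] at h1
  exact h1

/-- **The strict two-point inequality.** -/
theorem lt_of_dom {Φ : ℂ → ℂ} (hΦ : Sy Φ) {D : ℝ} (hD : ∀ b, Φ b = 0 → |b.re| ≤ D) (hz0 : ∃ b, Φ b = 0)
    {h : ℝ} {z : ℂ} (hz : z ∈ Dom Φ h) (h0 : 0 < h) (hre : 0 < z.re) :
    ‖Φ (z - h)‖ < ‖Φ (z + h)‖ := by
  by_contra hcon
  have hle := le_of_dom hΦ hz h0.le hre.le
  have heq : ‖Φ (z - h)‖ = ‖Φ (z + h)‖ := le_antisymm hle (not_lt.1 hcon)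
  have hne := ne_of_dom hz h0.le hre.le
  obtain ⟨φ, hφ⟩ : ∃ φ : ℂ → ℂ, φ = fun w => Φ (w - h) / Φ (w + h) := ⟨_, rfl⟩
  have hev : ∀ᶠ w in 𝓝 z, w ∈ Dom Φ h ∧ 0 < w.re :=
    (show ∀ᶠ w in 𝓝 z, w ∈ Dom Φ h from (isOpen_Dom hΦ hD h).mem_nhds hz).and
      (continuous_re.continuousAt.eventually (lt_mem_nhds hre))
  have hd1 : ∀ w : ℂ, DifferentiableAt ℂ (fun w => Φ (w - h)) w := fun w =>
    (hΦ.diff.comp (by fun_prop : Differentiable ℂ fun w : ℂ => w - h)) w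
  have hd2 : ∀ w : ℂ, DifferentiableAt ℂ (fun w => Φ (w + h)) w := fun w =>
    (hΦ.diff.comp (by fun_prop : Differentiable ℂ fun w : ℂ => w + h)) w
  have hdiff : ∀ᶠ w in 𝓝 z, DifferentiableAt ℂ φ w := by
    filter_upwards [hev] with w hw
    rw [hφ]
    exact (hd1 w).div (hd2 w) (ne_of_dom hw.1 h0.le hw.2.le)
  have hφz : ‖φ z‖ = 1 := by
    rw [hφ]
    simp only
    rw [norm_div, heq, div_self (norm_ne_zero_iff.2 hne)]
  have hmax : IsLocalMax (norm ∘ φ) z := by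
    filter_upwards [hev] with w hw
    rw [Function.comp_apply, Function.comp_apply, hφz, hφ]
    simp only
    rw [norm_div, div_le_one (norm_pos_iff.2 (ne_of_dom hw.1 h0.le hw.2.le))]
    exact le_of_dom hΦ hw.1 h0.le hw.2.le
  have hconst := Complex.eventually_eq_of_isLocalMax_norm hdiff hmax
  obtain ⟨k, hk⟩ : ∃ k : ℂ, k = φ z := ⟨_, rfl⟩
  have hk0 : k ≠ 0 := by
    intro h1
    rw [← hk, h1, norm_zero] at hφz
    exact zero_ne_one hφz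
  have hE : ∀ᶠ w in 𝓝 z, Φ (w - h) = k * Φ (w + h) := by
    filter_upwards [hconst, hev] with w hw1 hw2
    rw [hk, ← hw1, hφ]
    simp only
    rw [div_mul_cancel₀ _ (ne_of_dom hw2.1 h0.le hw2.2.le)]
  have hall : ∀ w, Φ (w - h) = k * Φ (w + h) := by
    have a1 : AnalyticOnNhd ℂ (fun w => Φ (w - h)) univ := fun w _ =>
      (show Differentiable ℂ fun w => Φ (w - h) from hd1).analyticAt w
    have a2 : AnalyticOnNhd ℂ (fun w => k * Φ (w + h)) univ := fun w _ =>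
      ((show Differentiable ℂ fun w => Φ (w + h) from hd2).const_mul k).analyticAt w
    have := a1.eq_of_eventuallyEq a2 hE
    exact fun w => congrFun this w
  obtain ⟨b, hb⟩ := hz0
  have hn : ∀ n : ℕ, Φ (b + n * (2 * h)) = 0 := by
    intro n
    induction n with
    | zero => simpa using hb
    | succ n ih =>
      have h1 := hall (b + n * (2 * h) + h)
      rw [add_sub_cancel_right, ih] at h1
      have h2 := (mul_eq_zero.1 h1.symm).resolve_left hk0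
      rw [← h2]
      congr 1
      push_cast
      ring
  obtain ⟨n, hn'⟩ := exists_nat_gt ((D - b.re) / (2 * h))
  have h3 := hD _ (hn n)
  have h4 : (b + (n : ℂ) * (2 * (h : ℂ))).re = b.re + n * (2 * h) := by simp
  rw [h4] at h3
  have h5 := (abs_le.1 h3).2
  rw [div_lt_iff₀ (by linarith)] at hn'
  linarith

end

end Pool.Agent.N76.SH
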